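import Mathlib

/-!
Definitions for the multiplicative Dirichlet spectrum (problem MP_85fa44_nt).
-/

namespace Pool.Agent.Lib_helper94.MDS

/-- `distInt x` is the distance from the real number `x` to the nearest integer. -/
noncomputable def distInt (x : ℝ) : ℝ := |x - (round x : ℝ)|

/-- `mMin ξ ζ Q` is `m_Q(ξ, ζ)`, the minimum of `‖q ξ‖ ‖q ζ‖` over the integers
`1 ≤ q ≤ Q` (for `Q ≥ 1` this is the infimum of a finite nonempty set, hence a minimum). -/
noncomputable def mMin (ξ ζ Q : ℝ) : ℝ :=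
  sInf {v : ℝ | ∃ q : ℤ, 1 ≤ q ∧ (q : ℝ) ≤ Q ∧ v = distInt (q * ξ) * distInt (q * ζ)}

/-- `L ξ ζ` is the limsup of `Q * m_Q(ξ, ζ)` as the real number `Q` tends to infinity
(for `Q ≥ 1` the function takes its values in `[0, 1]`). -/
noncomputable def L (ξ ζ : ℝ) : ℝ :=
  Filter.limsup (fun Q : ℝ => Q * mMin ξ ζ Q) Filter.atTop

/-- The multiplicative Dirichlet spectrum: the set of values of `L` on pairs of reals. -/
def mulDirichletSpectrum : Set ℝ := {l : ℝ | ∃ ξ ζ : ℝ, L ξ ζ = l}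

end Pool.Agent.Lib_helper94.MDS
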