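import Mathlib
import Pool.Agent.Lib_helper94.MDSDefs

namespace Pool.Agent.Lib_helper94.MDS

open Filter

lemma distInt_nonneg (x : ℝ) : 0 ≤ distInt x := abs_nonneg _

lemma distInt_le_half (x : ℝ) : distInt x ≤ 1 / 2 := abs_sub_round x

lemma distInt_le (x : ℝ) (n : ℤ) : distInt x ≤ |x - n| := round_le x n

lemma distInt_neg (x : ℝ) : distInt (-x) = distInt x := by
  apply le_antisymm
  · have h := distInt_le (-x) (-(round x))
    have e : |(-x) - ((-(round x) : ℤ) : ℝ)| = |x - (round x : ℝ)| := by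
      rw [← abs_neg]; congr 1; push_cast; ring
    rw [e] at h; exact h
  · have h := distInt_le x (-(round (-x)))
    have e : |x - ((-(round (-x)) : ℤ) : ℝ)| = |(-x) - (round (-x) : ℝ)| := by
      rw [← abs_neg]; congr 1; push_cast; ring
    rw [e] at h; exact h

lemma distInt_add_int (x : ℝ) (n : ℤ) : distInt (x + n) = distInt x := by
  unfold distInt
  rw [round_add_intCast]
  congr 1; push_cast; ring

lemma distInt_int (n : ℤ) : distInt (n : ℝ) = 0 := by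
  unfold distInt; simp

lemma distInt_add_le (x y : ℝ) : distInt (x + y) ≤ distInt x + distInt y := by
  have h := distInt_le (x + y) (round x + round y)
  refine h.trans ?_
  have : x + y - ((round x + round y : ℤ) : ℝ) = (x - round x) + (y - round y) := by
    push_cast; ring
  rw [this]
  exact abs_add_le _ _

lemma distInt_sub_le (x y : ℝ) : distInt (x - y) ≤ distInt x + distInt y := by
  have h := distInt_add_le x (-y)
  rw [distInt_neg] at h
  simpa [sub_eq_add_neg] using h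

lemma distInt_lipschitz (x y : ℝ) : |distInt x - distInt y| ≤ |x - y| := by
  have h1 : distInt x ≤ distInt y + |x - y| := by
    have h := distInt_le x (round y)
    have h2 : |x - (round y : ℝ)| ≤ |x - y| + |y - (round y : ℝ)| := by
      have := abs_add_le (x - y) (y - (round y : ℝ))
      simpa using this
    unfold distInt at *
    linarith
  have h3 : distInt y ≤ distInt x + |x - y| := by
    have h := distInt_le y (round x)
    have h2 : |y - (round x : ℝ)| ≤ |y - x| + |x - (round x : ℝ)| := by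
      have := abs_add_le (y - x) (x - (round x : ℝ))
      simpa using this
    rw [abs_sub_comm y x] at h2
    unfold distInt at *
    linarith
  rw [abs_le]; constructor <;> linarith

lemma continuous_distInt : Continuous distInt := by
  rw [Metric.continuous_iff]
  intro b ε hε
  refine ⟨ε, hε, fun a ha => ?_⟩
  rw [Real.dist_eq] at *
  exact lt_of_le_of_lt (distInt_lipschitz a b) ha

/-- The set over which the minimum is taken. -/
def mSet (ξ ζ Q : ℝ) : Set ℝ :=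
  {v : ℝ | ∃ q : ℤ, 1 ≤ q ∧ (q : ℝ) ≤ Q ∧ v = distInt (q * ξ) * distInt (q * ζ)}

lemma mSet_bddBelow (ξ ζ Q : ℝ) : BddBelow (mSet ξ ζ Q) := by
  refine ⟨0, ?_⟩
  rintro v ⟨q, _, _, rfl⟩
  exact mul_nonneg (distInt_nonneg _) (distInt_nonneg _)

lemma mMin_nonneg (ξ ζ Q : ℝ) : 0 ≤ mMin ξ ζ Q := by
  apply Real.sInf_nonneg
  rintro v ⟨q, _, _, rfl⟩
  exact mul_nonneg (distInt_nonneg _) (distInt_nonneg _)

lemma mMin_le {ξ ζ Q : ℝ} {q : ℤ} (h1 : 1 ≤ q) (h2 : (q : ℝ) ≤ Q) :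
    mMin ξ ζ Q ≤ distInt (q * ξ) * distInt (q * ζ) :=
  csInf_le (mSet_bddBelow ξ ζ Q) ⟨q, h1, h2, rfl⟩

lemma le_mMin {ξ ζ Q c : ℝ} (hQ : 1 ≤ Q)
    (h : ∀ q : ℤ, 1 ≤ q → (q : ℝ) ≤ Q → c ≤ distInt (q * ξ) * distInt (q * ζ)) :
    c ≤ mMin ξ ζ Q := by
  apply le_csInf
  · exact ⟨_, 1, le_refl _, by simpa using hQ, rfl⟩
  · rintro v ⟨q, h1, h2, rfl⟩
    exact h q h1 h2

/-- Dirichlet: there is `1 ≤ q ≤ n` with `‖qξ‖ ≤ 1/(n+1)`. -/
lemma exists_distInt_le (ξ : ℝ) {n : ℕ} (hn : 0 < n) :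
    ∃ q : ℤ, 1 ≤ q ∧ q ≤ n ∧ distInt (q * ξ) ≤ 1 / ((n : ℝ) + 1) := by
  obtain ⟨j, k, hk0, hkn, h⟩ := Real.exists_int_int_abs_mul_sub_le ξ hn
  exact ⟨k, by omega, hkn, (distInt_le _ j).trans h⟩

lemma Q_mMin_le_half {ξ ζ Q : ℝ} (hQ : 1 ≤ Q) : Q * mMin ξ ζ Q ≤ 1 / 2 := by
  have hn : 0 < ⌊Q⌋₊ := Nat.floor_pos.mpr hQ
  obtain ⟨q, h1, h2, h3⟩ := exists_distInt_le ξ hn
  have hfl : ((⌊Q⌋₊ : ℕ) : ℝ) ≤ Q := Nat.floor_le (by linarith)
  have hq : (q : ℝ) ≤ Q := by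
    have : (q : ℝ) ≤ ((⌊Q⌋₊ : ℕ) : ℝ) := by exact_mod_cast h2
    linarith
  have hlt : Q < (⌊Q⌋₊ : ℝ) + 1 := Nat.lt_floor_add_one Q
  have hm := mMin_le (ξ := ξ) (ζ := ζ) h1 hq
  have h4 : distInt (q * ξ) * distInt (q * ζ) ≤ (1 / ((⌊Q⌋₊ : ℝ) + 1)) * (1 / 2) :=
    mul_le_mul h3 (distInt_le_half _) (distInt_nonneg _) (by positivity)
  have h5 : Q * mMin ξ ζ Q ≤ Q * ((1 / ((⌊Q⌋₊ : ℝ) + 1)) * (1 / 2)) :=
    mul_le_mul_of_nonneg_left (hm.trans h4) (by linarith)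
  have h6 : Q * ((1 / ((⌊Q⌋₊ : ℝ) + 1)) * (1 / 2)) ≤ 1 / 2 := by
    have : Q * (1 / ((⌊Q⌋₊ : ℝ) + 1)) ≤ 1 := by
      rw [mul_one_div, div_le_one (by positivity)]
      exact hlt.le
    nlinarith
  linarith

lemma bdd_above_under (ξ ζ : ℝ) :
    IsBoundedUnder (· ≤ ·) atTop (fun Q : ℝ => Q * mMin ξ ζ Q) := by
  refine ⟨1 / 2, ?_⟩
  rw [eventually_map]
  filter_upwards [eventually_ge_atTop (1 : ℝ)] with Q hQ using Q_mMin_le_half hQ

lemma bdd_below_under (ξ ζ : ℝ) :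
    IsBoundedUnder (· ≥ ·) atTop (fun Q : ℝ => Q * mMin ξ ζ Q) := by
  refine ⟨0, ?_⟩
  rw [eventually_map]
  filter_upwards [eventually_ge_atTop (0 : ℝ)] with Q hQ using mul_nonneg hQ (mMin_nonneg _ _ _)

lemma L_nonneg (ξ ζ : ℝ) : 0 ≤ L ξ ζ := by
  unfold L
  apply le_limsup_of_frequently_le
  · apply Eventually.frequently
    filter_upwards [eventually_ge_atTop (0 : ℝ)] with Q hQ using mul_nonneg hQ (mMin_nonneg _ _ _)
  · exact bdd_above_under ξ ζ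

lemma L_le_of_eventually {ξ ζ c : ℝ} (h : ∀ᶠ Q : ℝ in atTop, Q * mMin ξ ζ Q ≤ c) :
    L ξ ζ ≤ c := by
  unfold L
  apply limsup_le_of_le
  · exact (bdd_below_under ξ ζ).isCoboundedUnder_le
  · exact h

lemma le_L_of_frequently {ξ ζ c : ℝ} (h : ∃ᶠ Q : ℝ in atTop, c ≤ Q * mMin ξ ζ Q) :
    c ≤ L ξ ζ := by
  unfold L
  exact le_limsup_of_frequently_le h (bdd_above_under ξ ζ)

end Pool.Agent.Lib_helper94.MDS
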