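import Mathlib

/-!
A certificate checker for the upper bound of the multiplicative Dirichlet spectrum.

The five real parameters `(θ, κ, ε, p, s)` run over a box; a certificate is a binary tree of
bisections whose leaves name a reason why a box contains no parameters of a bad configuration.
All data are natural numbers, in units of `1 / D`, `D = 2 ^ 30`.
-/

namespace Pool.Agent.Lib_helper94.MDS

/-- Certificates: `b0, ..., b4` bisect the corresponding coordinate at the given point, the others
are leaves. -/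
inductive Cert : Type
  | b0 (mid : ℕ) (l r : Cert)
  | b1 (mid : ℕ) (l r : Cert)
  | b2 (mid : ℕ) (l r : Cert)
  | b3 (mid : ℕ) (l r : Cert)
  | b4 (mid : ℕ) (l r : Cert)
  | g0 | g1 | g2 | g3 | g4 | g5 | g6
  | c (m i n : ℕ)
  | j (m n i cnt : ℕ)

/-- The unit of the fixed point arithmetic. -/
def DD : ℕ := 1073741824

/-- numerator of the bound -/
def cN : ℕ := 1911
/-- denominator of the bound -/
def cD : ℕ := 5000

/-- A box, given by ten natural numbers. -/
structure Box : Type where
  (a a' b b' e e' p p' s s' : ℕ)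

/-- upper bound of `m κ + ε (m θ - i)` (units `D ^ 2`) -/
def yHi (m i a' b' e e' : ℕ) : ℕ :=
  m * b' * DD + e' * (m * a' - i * DD) - e * (i * DD - m * a')

/-- upper bound of `|(m - i) p + i s - n|` (units `D`) -/
def zAbs (m i n p p' s s' : ℕ) : ℕ :=
  Nat.max ((m - i) * p' + i * s' - n * DD) (n * DD - ((m - i) * p + i * s))

/-- The one sided branch test for the point `k`. -/
def branch (m n k a' b' e e' p' s' : ℕ) : Bool :=
  Nat.ble (((m - k) * p' + k * s' - n * DD) * yHi m k a' b' e e' * cD) (cN * DD * DD * DD)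

/-- The branch test for `k, k + 1, ..., k + cnt`. -/
def branches (m n a' b' e e' p' s' : ℕ) : ℕ → ℕ → Bool
  | 0, k => branch m n k a' b' e e' p' s'
  | cnt + 1, k => branch m n k a' b' e e' p' s' && branches m n a' b' e e' p' s' cnt (k + 1)

/-- The strip test for the point `(m, i)`. -/
def strip (m i a a' b : ℕ) : Bool :=
  Nat.ble (i * DD) (b + m * a) && Nat.ble (m * a') (b + i * DD)

/-- The checker. -/
def check : Cert → ℕ → ℕ → ℕ → ℕ → ℕ → ℕ → ℕ → ℕ → ℕ → ℕ → Bool
  | .b0 mid l r, a, a', b, b', e, e', p, p', s, s' =>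
      check l a mid b b' e e' p p' s s' && check r mid a' b b' e e' p p' s s'
  | .b1 mid l r, a, a', b, b', e, e', p, p', s, s' =>
      check l a a' b mid e e' p p' s s' && check r a a' mid b' e e' p p' s s'
  | .b2 mid l r, a, a', b, b', e, e', p, p', s, s' =>
      check l a a' b b' e mid p p' s s' && check r a a' b b' mid e' p p' s s'
  | .b3 mid l r, a, a', b, b', e, e', p, p', s, s' =>
      check l a a' b b' e e' p mid s s' && check r a a' b b' e e' mid p' s s'
  | .b4 mid l r, a, a', b, b', e, e', p, p', s, s' =>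
      check l a a' b b' e e' p p' s mid && check r a a' b b' e e' p p' mid s'
  | .g0, _, a', _, b', e, _, _, _, _, _ =>
      Nat.ble ((b' * DD - e * (DD - a')) * cD) (2 * cN * DD * DD)
  | .g1, a, _, b, _, _, _, _, _, _, _ => Nat.ble (34 * (DD - a)) b
  | .g2, a, a', b, b', e, _, _, _, _, _ =>
      Nat.ble (2 * (DD - a)) b && Nat.ble (2 * (b' * DD - e * (DD - a')) * cD) (5 * cN * DD * DD)
  | .g3, _, a', _, b', e, _, _, _, _, s' =>
      Nat.ble ((b' * DD - e * (DD - a')) * s' * cD) (cN * DD * DD * DD)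
  | .g4, _, a', _, b', _, e', p, p', _, _ =>
      Nat.ble ((b' * DD + e' * a') * zAbs 1 0 0 p p' 0 0 * cD) (cN * DD * DD * DD)
  | .g5, _, a', _, b', _, e', _, _, _, _ =>
      Nat.ble ((b' * DD + e' * a') * cD) (2 * cN * DD * DD)
  | .g6, _, a', _, b', _, e', p, p', _, _ =>
      Nat.ble ((b' * DD + e' * a') * zAbs 1 0 1 p p' 0 0 * cD) (cN * DD * DD * DD)
  | .c m i n, a, a', b, b', e, e', p, p', s, s' =>
      Nat.ble 1 m && Nat.ble m 60 && Nat.ble i m && strip m i a a' b &&
        Nat.ble (yHi m i a' b' e e' * zAbs m i n p p' s s' * cD) (cN * DD * DD * DD)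
  | .j m n i cnt, a, a', b, b', e, e', p, p', s, s' =>
      Nat.ble 2 m && Nat.ble m 60 && Nat.ble 1 n && Nat.ble 1 cnt && Nat.ble (i + cnt) m &&
        Nat.ble (i * DD) (m * a) && Nat.ble (m * a') ((i + cnt) * DD) &&
        branches m n a' b' e e' p' s' cnt i &&
        (Nat.ble (n * m * cD) (cN * (m * m + 1)) ||
          (Nat.ble cnt 1 && strip m i a a' b && strip m (i + 1) a a' b &&
            Nat.ble (n * m * b' * cD) (cN * (m * m + 1) * DD)))

end Pool.Agent.Lib_helper94.MDS
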