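import Mathlib
import Pool.Agent.Lib_helper94.MDSCheck

/-!
Soundness of the certificate checker.
-/

namespace Pool.Agent.Lib_helper94.MDS

/-- The real parameters of a configuration in which every point of the strip has
product `> 1911 / 5000`. -/
structure Bad (θ κ ε p s : ℝ) : Prop where
  hθ0 : 0 ≤ θ
  hκ0 : 3 / 4 ≤ κ
  hκ1 : κ < 1
  hε0 : 0 ≤ ε
  hε1 : ε ≤ 1
  hp0 : 0 ≤ p
  hp1 : p ≤ 1
  hs0 : 0 ≤ s
  hs1 : s ≤ 1 / 2
  hu : 1 - θ ≤ κ
  hw : θ ≤ κ
  h34 : κ < 34 * (1 - θ)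
  h2 : 2 * (1 - θ) ≤ κ → 5 * (1911 / 5000) < 2 * (κ - ε * (1 - θ))
  hpt : ∀ m i : ℕ, 1 ≤ m → m ≤ 60 → i ≤ m → |(i : ℝ) - m * θ| ≤ κ → ∀ n : ℤ,
    1911 / 5000 < (m * κ + ε * (m * θ - i)) * |((m : ℝ) - i) * p + i * s - n|

section casts

lemma cast_sub_ge (x y : ℕ) : (x : ℝ) - y ≤ ((x - y : ℕ) : ℝ) := by
  rcases le_total y x with h | h
  · rw [Nat.cast_sub h]
  · rw [Nat.sub_eq_zero_of_le h, Nat.cast_zero]
    have : (x : ℝ) ≤ y := by exact_mod_cast h
    linarith

lemma DD_pos : (0 : ℝ) < (DD : ℝ) := by norm_num [DD]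

variable {θ κ ε p s : ℝ} {a a' b b' e e' p₀ p₁ s₀ s₁ : ℕ}

lemma yHi_le (m i : ℕ) (hθ : θ * DD ≤ a') (hκ : κ * DD ≤ b') (he : (e : ℝ) ≤ ε * DD)
    (he' : ε * DD ≤ e') : (m * κ + ε * (m * θ - i)) * (DD : ℝ) ^ 2 ≤ (yHi m i a' b' e e' : ℝ) := by
  have hD := DD_pos
  set D : ℝ := (DD : ℝ) with hDdef
  have hm : (0 : ℝ) ≤ m := Nat.cast_nonneg m
  have he0 : (0 : ℝ) ≤ e := Nat.cast_nonneg e
  have hε0 : 0 ≤ ε * D := he0.trans he
  have h1 : (m * κ + ε * (m * θ - i)) * D ^ 2 ≤ m * b' * D + (ε * D) * (m * a' - i * D) := by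
    have e1 : (m * κ + ε * (m * θ - i)) * D ^ 2 =
        m * (κ * D) * D + (ε * D) * (m * (θ * D) - i * D) := by ring
    rw [e1]
    have h2 : m * (κ * D) * D ≤ m * b' * D :=
      mul_le_mul_of_nonneg_right (mul_le_mul_of_nonneg_left hκ hm) hD.le
    have h3 : (ε * D) * (m * (θ * D) - i * D) ≤ (ε * D) * (m * a' - i * D) := by
      apply mul_le_mul_of_nonneg_left _ hε0
      have := mul_le_mul_of_nonneg_left hθ hm
      linarith
    linarith
  refine h1.trans ?_
  unfold yHi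
  refine le_trans ?_ (cast_sub_ge _ _)
  rcases le_total (i * DD) (m * a') with h | h
  · rw [Nat.sub_eq_zero_of_le h, mul_zero, Nat.cast_zero, sub_zero]
    push_cast [Nat.cast_sub h]
    rw [← hDdef]
    have h' : (i : ℝ) * D ≤ m * a' := by rw [hDdef]; exact_mod_cast h
    have := mul_le_mul_of_nonneg_right he' (sub_nonneg.mpr h')
    linarith
  · rw [Nat.sub_eq_zero_of_le h, mul_zero, add_zero]
    push_cast [Nat.cast_sub h]
    rw [← hDdef]
    have h' : (m : ℝ) * a' ≤ i * D := by rw [hDdef]; exact_mod_cast h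
    have := mul_le_mul_of_nonneg_right he (sub_nonneg.mpr h')
    linarith

lemma zHi_le (m i : ℕ) (hi : i ≤ m) (hp : p * DD ≤ p₁) (hs : s * DD ≤ s₁) :
    (((m : ℝ) - i) * p + i * s) * DD ≤ (((m - i) * p₁ + i * s₁ : ℕ) : ℝ) := by
  have hi' : (0 : ℝ) ≤ (m : ℝ) - i := by
    have : (i : ℝ) ≤ m := by exact_mod_cast hi
    linarith
  push_cast [Nat.cast_sub hi]
  have h1 := mul_le_mul_of_nonneg_left hp hi'
  have h2 := mul_le_mul_of_nonneg_left hs (Nat.cast_nonneg (α := ℝ) i)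
  linarith

lemma zLo_le (m i : ℕ) (hi : i ≤ m) (hp : (p₀ : ℝ) ≤ p * DD) (hs : (s₀ : ℝ) ≤ s * DD) :
    (((m - i) * p₀ + i * s₀ : ℕ) : ℝ) ≤ (((m : ℝ) - i) * p + i * s) * DD := by
  have hi' : (0 : ℝ) ≤ (m : ℝ) - i := by
    have : (i : ℝ) ≤ m := by exact_mod_cast hi
    linarith
  push_cast [Nat.cast_sub hi]
  have h1 := mul_le_mul_of_nonneg_left hp hi'
  have h2 := mul_le_mul_of_nonneg_left hs (Nat.cast_nonneg (α := ℝ) i)
  linarith

lemma zAbs_le (m i n : ℕ) (hi : i ≤ m) (hp : (p₀ : ℝ) ≤ p * DD) (hp' : p * DD ≤ p₁)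
    (hs : (s₀ : ℝ) ≤ s * DD) (hs' : s * DD ≤ s₁) :
    |((m : ℝ) - i) * p + i * s - n| * DD ≤ (zAbs m i n p₀ p₁ s₀ s₁ : ℝ) := by
  have hD := DD_pos
  have h1 := zHi_le m i hi hp' hs'
  have h2 := zLo_le m i hi hp hs
  have h3 := cast_sub_ge ((m - i) * p₁ + i * s₁) (n * DD)
  have h4 := cast_sub_ge (n * DD) ((m - i) * p₀ + i * s₀)
  have e1 : |((m : ℝ) - i) * p + i * s - n| * DD =
      |(((m : ℝ) - i) * p + i * s) * DD - n * DD| := by
    rw [← sub_mul, abs_mul, abs_of_pos hD]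
  rw [e1]
  have h5 : ((n * DD : ℕ) : ℝ) = n * DD := by push_cast; rfl
  rw [h5] at h3 h4
  have h6 : ((((m - i) * p₁ + i * s₁ - n * DD : ℕ)) : ℝ) ≤ (zAbs m i n p₀ p₁ s₀ s₁ : ℝ) := by
    have : ((m - i) * p₁ + i * s₁ - n * DD : ℕ) ≤ zAbs m i n p₀ p₁ s₀ s₁ := le_max_left _ _
    exact_mod_cast this
  have h7 : (((n * DD - ((m - i) * p₀ + i * s₀) : ℕ)) : ℝ) ≤ (zAbs m i n p₀ p₁ s₀ s₁ : ℝ) := by
    have : (n * DD - ((m - i) * p₀ + i * s₀) : ℕ) ≤ zAbs m i n p₀ p₁ s₀ s₁ := le_max_right _ _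
    exact_mod_cast this
  rw [abs_le]
  constructor <;> linarith

end casts

/-- The key inequality: a point of the strip, together with bounds for its two factors. -/
lemma point_false {y z : ℝ} {Y Z : ℕ} (h : 1911 / 5000 < y * |z|)
    (hY : y * (DD : ℝ) ^ 2 ≤ Y) (hZ : |z| * DD ≤ Z)
    (hle : Y * Z * cD ≤ cN * DD * DD * DD) : False := by
  have hD := DD_pos
  have h1 : y * |z| * (DD : ℝ) ^ 3 ≤ Y * Z := by
    calc y * |z| * (DD : ℝ) ^ 3 = (y * (DD : ℝ) ^ 2) * (|z| * DD) := by ring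
      _ ≤ Y * (|z| * DD) := mul_le_mul_of_nonneg_right hY (by positivity)
      _ ≤ Y * Z := mul_le_mul_of_nonneg_left hZ (Nat.cast_nonneg _)
  have h2 : (Y : ℝ) * Z * cD ≤ cN * DD * DD * DD := by exact_mod_cast hle
  have h3 : 1911 / 5000 * (DD : ℝ) ^ 3 < y * |z| * (DD : ℝ) ^ 3 :=
    mul_lt_mul_of_pos_right h (by positivity)
  have h4 : ((cD : ℕ) : ℝ) = 5000 := by norm_num [cD]
  have h5 : ((cN : ℕ) : ℝ) = 1911 := by norm_num [cN]
  rw [h4, h5] at h2
  nlinarith

/-- A one sided form. -/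
lemma branch_le {y z : ℝ} {Y Z n : ℕ} (hy : 0 ≤ y) (hz : (n : ℝ) ≤ z)
    (hY : y * (DD : ℝ) ^ 2 ≤ Y) (hZ : z * DD ≤ Z)
    (hle : (Z - n * DD) * Y * cD ≤ cN * DD * DD * DD) : y * (z - n) ≤ 1911 / 5000 := by
  have hD := DD_pos
  have h0 : ((n : ℝ)) * DD ≤ z * DD := mul_le_mul_of_nonneg_right hz hD.le
  have h1 : (z - n) * DD ≤ ((Z - n * DD : ℕ) : ℝ) := by
    have := cast_sub_ge Z (n * DD)
    push_cast at this
    linarith
  have h2 : y * (z - n) * (DD : ℝ) ^ 3 ≤ ((Z - n * DD : ℕ) : ℝ) * Y := by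
    calc y * (z - n) * (DD : ℝ) ^ 3 = ((z - n) * DD) * (y * (DD : ℝ) ^ 2) := by ring
      _ ≤ ((Z - n * DD : ℕ) : ℝ) * (y * (DD : ℝ) ^ 2) :=
          mul_le_mul_of_nonneg_right h1 (by positivity)
      _ ≤ ((Z - n * DD : ℕ) : ℝ) * Y := mul_le_mul_of_nonneg_left hY (Nat.cast_nonneg _)
  have h3 : ((Z - n * DD : ℕ) : ℝ) * Y * cD ≤ cN * DD * DD * DD := by exact_mod_cast hle
  have h4 : ((cD : ℕ) : ℝ) = 5000 := by norm_num [cD]
  have h5 : ((cN : ℕ) : ℝ) = 1911 := by norm_num [cN]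
  rw [h4, h5] at h3
  have h6 : y * (z - n) * (DD : ℝ) ^ 3 ≤ 1911 / 5000 * (DD : ℝ) ^ 3 := by nlinarith
  exact le_of_mul_le_mul_right h6 (by positivity)

/-- Two point Jensen inequality for `1 / x`. -/
lemma jensen {x y u v l m c : ℝ} (hx : 0 < x) (hy : 0 < y) (hl : 0 ≤ l) (hm : 0 ≤ m)
    (hlm : l + m = 1) (hc : 0 < c) (h1 : c < x * u) (h2 : c < y * v) :
    c < (l * x + m * y) * (l * u + m * v) := by
  have hu : 0 < u := by
    by_contra h; push Not at h
    have := mul_nonpos_of_nonneg_of_nonpos hx.le h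
    linarith
  have hv : 0 < v := by
    by_contra h; push Not at h
    have := mul_nonpos_of_nonneg_of_nonpos hy.le h
    linarith
  -- cross terms
  have h3 : 2 * c < x * v + y * u := by
    have h4 : (2 * c) ^ 2 < (x * v + y * u) ^ 2 := by
      have h5 : c * c < (x * u) * (y * v) :=
        mul_lt_mul'' h1 h2 hc.le hc.le
      nlinarith [sq_nonneg (x * v - y * u)]
    exact lt_of_pow_lt_pow_left₀ 2 (by positivity) h4
  have e1 : (l * x + m * y) * (l * u + m * v) =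
      l ^ 2 * (x * u) + m ^ 2 * (y * v) + l * m * (x * v + y * u) := by ring
  rw [e1]
  have hm' : m = 1 - l := by linarith
  have e2 : c = l ^ 2 * c + m ^ 2 * c + l * m * (2 * c) := by rw [hm']; ring
  rcases eq_or_lt_of_le hl with hl0 | hl0
  · rw [← hl0] at hlm ⊢
    have : m = 1 := by linarith
    rw [this]; nlinarith
  · have h6 : l ^ 2 * c < l ^ 2 * (x * u) := mul_lt_mul_of_pos_left h1 (by positivity)
    have h7 : m ^ 2 * c ≤ m ^ 2 * (y * v) := mul_le_mul_of_nonneg_left h2.le (by positivity)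
    have h8 : l * m * (2 * c) ≤ l * m * (x * v + y * u) :=
      mul_le_mul_of_nonneg_left h3.le (by positivity)
    linarith

section sound

variable {θ κ ε p s : ℝ}

lemma Bad.g_lower (h : Bad θ κ ε p s) : 1911 / 5000 < κ * ((1 - θ) * p + θ * s) := by
  have hθ1 : θ < 1 := h.hw.trans_lt h.hκ1
  have h1 := h.hpt 1 0 le_rfl (by norm_num) (by norm_num)
    (by push_cast; rw [abs_le]; constructor <;> linarith [h.hw, h.hθ0, h.hκ0]) 0
  have h2 := h.hpt 1 1 le_rfl (by norm_num) le_rfl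
    (by push_cast; rw [abs_le]; constructor <;> linarith [h.hu, h.hθ0, h.hκ0]) 0
  push_cast at h1 h2
  have e1 : ((1 : ℝ) * κ + ε * (1 * θ - 0)) = κ + ε * θ := by ring
  have e2 : ((1 : ℝ) - 0) * p + 0 * s - 0 = p := by ring
  have e3 : ((1 : ℝ) * κ + ε * (1 * θ - 1)) = κ - ε * (1 - θ) := by ring
  have e4 : ((1 : ℝ) - 1) * p + 1 * s - 0 = s := by ring
  rw [e1, e2, abs_of_nonneg h.hp0] at h1
  rw [e3, e4, abs_of_nonneg h.hs0] at h2
  have hx : 0 < κ + ε * θ := by
    have := mul_nonneg h.hε0 h.hθ0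
    linarith [h.hκ0]
  have hy : 0 < κ - ε * (1 - θ) := by
    by_contra hcon
    push Not at hcon
    have := mul_nonpos_of_nonpos_of_nonneg hcon h.hs0
    linarith
  have h3 := jensen hx hy (show (0 : ℝ) ≤ 1 - θ by linarith) h.hθ0 (by ring) (by norm_num) h1 h2
  have e5 : ((1 - θ) * (κ + ε * θ) + θ * (κ - ε * (1 - θ))) = κ := by ring
  rwa [e5] at h3

/-- The Jensen leaf: both neighbours in the strip. -/
lemma Bad.J_both (h : Bad θ κ ε p s) (m n i : ℕ) (hm1 : 1 ≤ m) (hm : m ≤ 60) (him : i + 1 ≤ m)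
    (hi1 : (i : ℝ) ≤ m * θ) (hi2 : (m : ℝ) * θ ≤ i + 1)
    (hs1 : |(i : ℝ) - m * θ| ≤ κ) (hs2 : |((i : ℝ) + 1) - m * θ| ≤ κ)
    (hb1 : (n : ℝ) ≤ ((m : ℝ) - i) * p + i * s →
      (m * κ + ε * (m * θ - i)) * (((m : ℝ) - i) * p + i * s - n) ≤ 1911 / 5000)
    (hb2 : (n : ℝ) ≤ ((m : ℝ) - (i + 1)) * p + (i + 1) * s →
      (m * κ + ε * (m * θ - (i + 1))) * (((m : ℝ) - (i + 1)) * p + (i + 1) * s - n) ≤
        1911 / 5000) :
    1911 / 5000 * ((m : ℝ) ^ 2 + 1) < n * m * κ := by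
  have hpt1 := h.hpt m i hm1 hm (by omega) hs1 n
  have hpt2 := h.hpt m (i + 1) hm1 hm him (by push_cast; exact hs2) n
  push_cast at hpt1 hpt2
  set z1 := ((m : ℝ) - i) * p + i * s with hz1
  set z2 := ((m : ℝ) - (i + 1)) * p + (i + 1) * s with hz2
  set y1 := m * κ + ε * (m * θ - i) with hy1
  set y2 := m * κ + ε * (m * θ - (i + 1)) with hy2
  have hz1n : z1 < n := by
    by_contra hcon
    push Not at hcon
    have := hb1 hcon
    rw [abs_of_nonneg (by linarith)] at hpt1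
    linarith
  have hz2n : z2 < n := by
    by_contra hcon
    push Not at hcon
    have := hb2 hcon
    rw [abs_of_nonneg (by linarith)] at hpt2
    linarith
  rw [abs_of_neg (by linarith), neg_sub] at hpt1 hpt2
  have hy1p : 0 < y1 := by
    by_contra hcon
    push Not at hcon
    have := mul_nonpos_of_nonpos_of_nonneg hcon (show (0 : ℝ) ≤ n - z1 by linarith)
    linarith
  have hy2p : 0 < y2 := by
    by_contra hcon
    push Not at hcon
    have := mul_nonpos_of_nonpos_of_nonneg hcon (show (0 : ℝ) ≤ n - z2 by linarith)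
    linarith
  have h3 := jensen hy1p hy2p (show (0 : ℝ) ≤ i + 1 - m * θ by linarith)
    (show (0 : ℝ) ≤ m * θ - i by linarith) (by ring) (by norm_num) hpt1 hpt2
  have e1 : ((i + 1 - m * θ) * y1 + (m * θ - i) * y2) = m * κ := by rw [hy1, hy2]; ring
  have e2 : ((i + 1 - m * θ) * (n - z1) + (m * θ - i) * (n - z2)) =
      n - m * ((1 - θ) * p + θ * s) := by rw [hz1, hz2]; ring
  rw [e1, e2] at h3
  have hg := h.g_lower
  have hmR : (1 : ℝ) ≤ m := by exact_mod_cast hm1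
  nlinarith [mul_lt_mul_of_pos_left hg (show (0 : ℝ) < (m : ℝ) ^ 2 by positivity)]

/-- The Jensen leaf, full version. -/
lemma Bad.J_full (h : Bad θ κ ε p s) (m n i : ℕ) (hm1 : 2 ≤ m) (hm : m ≤ 60) (hn : 1 ≤ n)
    (him : i + 1 ≤ m)
    (hi1 : (i : ℝ) ≤ m * θ) (hi2 : (m : ℝ) * θ ≤ i + 1)
    (hb1 : (n : ℝ) ≤ ((m : ℝ) - i) * p + i * s →
      (m * κ + ε * (m * θ - i)) * (((m : ℝ) - i) * p + i * s - n) ≤ 1911 / 5000)
    (hb2 : (n : ℝ) ≤ ((m : ℝ) - (i + 1)) * p + (i + 1) * s →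
      (m * κ + ε * (m * θ - (i + 1))) * (((m : ℝ) - (i + 1)) * p + (i + 1) * s - n) ≤
        1911 / 5000)
    (hfull : (n : ℝ) * m ≤ 1911 / 5000 * ((m : ℝ) ^ 2 + 1)) : False := by
  have hg := h.g_lower
  have hmR : (2 : ℝ) ≤ m := by exact_mod_cast hm1
  have hnR : (1 : ℝ) ≤ n := by exact_mod_cast hn
  have hκ0 := h.hκ0
  have hκ1 := h.hκ1
  have hp0 := h.hp0
  have hp1 := h.hp1
  have hs0 := h.hs0
  have hs1 := h.hs1
  have hε0 := h.hε0
  have hε1 := h.hε1
  set g := (1 - θ) * p + θ * s with hgdef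
  -- a general conclusion
  have key : ∀ δ : ℝ, δ ≤ 1 - κ → 1911 / 5000 < m * κ * (n - m * g + δ) → False := by
    intro δ hδ hlt
    have h1 : m * κ * (n - m * g + δ) ≤ m * κ * (n - m * g + (1 - κ)) := by
      apply mul_le_mul_of_nonneg_left _ (by positivity); linarith
    have h2 : (m : ℝ) ^ 2 * (1911 / 5000) < (m : ℝ) ^ 2 * (κ * g) :=
      mul_lt_mul_of_pos_left hg (by positivity)
    -- c (m^2+1) < n m κ + m κ (1 - κ)
    have h3 : 1911 / 5000 * ((m : ℝ) ^ 2 + 1) < n * m * κ + m * κ * (1 - κ) := by nlinarith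
    have h4 : 0 ≤ (m : ℝ) * (1 - κ) * (n - κ) := by
      apply mul_nonneg (mul_nonneg (by linarith) (by linarith)) (by linarith)
    nlinarith
  by_cases hs1' : |(i : ℝ) - m * θ| ≤ κ
  · by_cases hs2' : |((i : ℝ) + 1) - m * θ| ≤ κ
    · have := h.J_both m n i (by omega) hm him hi1 hi2 hs1' hs2' hb1 hb2
      have h5 : (n : ℝ) * m * κ ≤ n * m := by
        have : (0 : ℝ) ≤ n * m := by positivity
        nlinarith
      linarith
    · -- the right neighbour is outside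
      have hpt1 := h.hpt m i (by omega) hm (by omega) hs1' n
      push_cast at hpt1
      rw [abs_of_nonneg (by linarith)] at hs2'
      push Not at hs2'
      set δ := m * θ - i with hδ
      have hδ0 : 0 ≤ δ := by linarith
      have hδ1 : δ ≤ 1 - κ := by linarith
      have hz1n : ((m : ℝ) - i) * p + i * s < n := by
        by_contra hcon
        push Not at hcon
        have := hb1 hcon
        rw [abs_of_nonneg (by linarith)] at hpt1
        linarith
      rw [abs_of_neg (by linarith), neg_sub] at hpt1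
      have e1 : ((m : ℝ) - i) * p + i * s = m * g + δ * (p - s) := by
        rw [hgdef, hδ]; ring
      rw [e1] at hpt1
      apply key δ hδ1
      -- W = n - m g
      have hgc : 1911 / 5000 < g := by
        have hg0 : 0 < g := by
          by_contra hcon
          push Not at hcon
          have := mul_nonpos_of_nonneg_of_nonpos (show (0:ℝ) ≤ κ by linarith) hcon
          linarith
        nlinarith
      set W := (n : ℝ) - m * g with hW
      have hWle : W ≤ 1 / 5 := by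
        -- n m ≤ c (m^2+1), W m = n m - m^2 g ≤ c
        have h6 : W * m ≤ 1911 / 5000 := by
          rw [hW]
          have : (m : ℝ) ^ 2 * (1911 / 5000) ≤ (m : ℝ) ^ 2 * g :=
            mul_le_mul_of_nonneg_left hgc.le (by positivity)
          nlinarith
        by_contra hcon
        push Not at hcon
        nlinarith
      have h7 : (n : ℝ) - (m * g + δ * (p - s)) ≤ W + δ / 2 := by
        have : -(1 / 2) ≤ p - s := by linarith
        nlinarith
      have h8 : 1911 / 5000 < (m * κ + ε * δ) * (W + δ / 2) := by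
        refine hpt1.trans_le ?_
        apply mul_le_mul_of_nonneg_left h7
        have := mul_nonneg hε0 hδ0
        have : (0 : ℝ) ≤ m * κ := by positivity
        linarith
      have hmκ : (3 / 2 : ℝ) ≤ m * κ := by nlinarith
      have hpos : 0 < W + δ / 2 := by
        by_contra hcon
        push Not at hcon
        have h9 := mul_nonneg hε0 hδ0
        have := mul_nonpos_of_nonneg_of_nonpos (show (0:ℝ) ≤ m * κ + ε * δ by linarith) hcon
        linarith
      have h9 : (m * κ + ε * δ) * (W + δ / 2) ≤ (m * κ + δ) * (W + δ / 2) := by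
        apply mul_le_mul_of_nonneg_right _ hpos.le
        have : ε * δ ≤ 1 * δ := mul_le_mul_of_nonneg_right hε1 hδ0
        linarith
      have h10 : (m * κ + δ) * (W + δ / 2) ≤ m * κ * (W + δ) := by
        have : δ * (W + δ / 2) ≤ δ * (m * κ / 2) := by
          apply mul_le_mul_of_nonneg_left _ hδ0
          linarith
        nlinarith
      linarith
  · -- the left neighbour is outside
    rw [abs_of_nonpos (by linarith)] at hs1'
    push Not at hs1'
    have hs2' : |((i : ℝ) + 1) - m * θ| ≤ κ := by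
      rw [abs_of_nonneg (by linarith)]; linarith
    have hpt2 := h.hpt m (i + 1) (by omega) hm him (by push_cast; exact hs2') n
    push_cast at hpt2
    set δ := i + 1 - m * θ with hδ
    have hδ0 : 0 ≤ δ := by linarith
    have hδ1 : δ ≤ 1 - κ := by linarith
    have hz2n : ((m : ℝ) - (i + 1)) * p + (i + 1) * s < n := by
      by_contra hcon
      push Not at hcon
      have := hb2 hcon
      rw [abs_of_nonneg (by linarith)] at hpt2
      linarith
    rw [abs_of_neg (by linarith), neg_sub] at hpt2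
    have e1 : ((m : ℝ) - (i + 1)) * p + (i + 1) * s = m * g + δ * (s - p) := by
      rw [hgdef, hδ]; ring
    have e2 : m * κ + ε * (m * θ - (i + 1)) = m * κ - ε * δ := by rw [hδ]; ring
    rw [e1] at hpt2 hz2n
    rw [e2] at hpt2
    apply key δ hδ1
    have h7 : (m * κ - ε * δ) * ((n : ℝ) - (m * g + δ * (s - p))) ≤
        (m * κ) * ((n : ℝ) - (m * g + δ * (s - p))) := by
      apply mul_le_mul_of_nonneg_right _ (by linarith)
      have := mul_nonneg hε0 hδ0
      linarith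
    have h8 : (m * κ) * ((n : ℝ) - (m * g + δ * (s - p))) ≤ m * κ * (n - m * g + δ) := by
      apply mul_le_mul_of_nonneg_left _ (by positivity)
      have : δ * (-1) ≤ δ * (s - p) := mul_le_mul_of_nonneg_left (by linarith) hδ0
      linarith
    linarith

end sound

end Pool.Agent.Lib_helper94.MDS
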