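import Mathlib
import Pool.Agent.Lib_helper94.MDSBasic
import Pool.Agent.Lib_helper94.MDSSound

/-!
From a pair `(ξ, ζ)` and a large `Q` with `Q m_Q(ξ, ζ) > 1911 / 5000` to a bad configuration.
-/

namespace Pool.Agent.Lib_helper94.MDS

open Filter

lemma distInt_nat_mul_le (n : ℕ) (x : ℝ) : distInt (n * x) ≤ n * distInt x := by
  induction n with
  | zero =>
    have := distInt_int 0
    simp only [Nat.cast_zero, zero_mul, Int.cast_zero] at this ⊢
    rw [this]
  | succ n ih =>
    have e : ((n + 1 : ℕ) : ℝ) * x = n * x + x := by push_cast; ring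
    rw [e]
    have := distInt_add_le (n * x) x
    push_cast
    linarith

/-- Consecutive best approximations of an irrational number, with more information. -/
lemma exists_consecutive2 {ξ : ℝ} (hξ : Irrational ξ) {Q : ℝ} (hQ : 1 ≤ Q)
    (hQ2 : ∀ q : ℤ, 1 ≤ q → q ≤ 60 → 1 / distInt (q * ξ) < Q) :
    ∃ (a b : ℤ) (α β : ℝ), 60 < a ∧ (a : ℝ) ≤ Q ∧ Q < b ∧ 0 < β ∧ β < α ∧
      b * α + a * β = 1 ∧ IsCoprime a b ∧ distInt (a * ξ) ≤ α ∧
      distInt ((b - a : ℤ) * ξ) ≤ α + β := by
  classical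
  -- positivity of `distInt (q ξ)` for `q ≠ 0`
  have hpos : ∀ q : ℤ, q ≠ 0 → 0 < distInt (q * ξ) := by
    intro q hq
    unfold distInt
    rw [abs_pos, sub_ne_zero]
    exact (hξ.intCast_mul hq).ne_int _
  set n := ⌊Q⌋₊ with hn
  have hn1 : 1 ≤ n := Nat.floor_pos.mpr hQ
  have hnQ : (n : ℝ) ≤ Q := Nat.floor_le (by linarith)
  have hQn : Q < (n : ℝ) + 1 := Nat.lt_floor_add_one Q
  -- the minimiser
  obtain ⟨a, ha, hamin⟩ := Finset.exists_min_image (Finset.Icc (1 : ℤ) n)
    (fun q => distInt (q * ξ)) ⟨1, by simp; exact_mod_cast hn1⟩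
  rw [Finset.mem_Icc] at ha
  have ha1 : 1 ≤ a := ha.1
  have han : a ≤ n := ha.2
  have hamin' : ∀ q : ℤ, 1 ≤ q → q ≤ n → distInt (a * ξ) ≤ distInt (q * ξ) := by
    intro q h1 h2
    exact hamin q (Finset.mem_Icc.mpr ⟨h1, h2⟩)
  set α := distInt (a * ξ) with hα
  have hα0 : 0 < α := hpos a (by omega)
  -- existence of a better approximation
  have hex : ∃ k : ℕ, 1 ≤ k ∧ distInt (((k : ℕ) : ℤ) * ξ) < α := by
    obtain ⟨m, hm⟩ := exists_nat_gt (1 / α)
    have hm0 : 0 < m := by
      have : (0 : ℝ) < m := lt_trans (by positivity) hm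
      exact_mod_cast this
    obtain ⟨q, hq1, hq2, hq3⟩ := exists_distInt_le ξ hm0
    refine ⟨q.toNat, by omega, ?_⟩
    have hqq : ((q.toNat : ℕ) : ℤ) = q := Int.toNat_of_nonneg (by omega)
    rw [hqq]
    refine hq3.trans_lt ?_
    rw [one_div_lt (by positivity) hα0]
    linarith
  set b := Nat.find hex with hb
  obtain ⟨hb1, hbα⟩ := Nat.find_spec hex
  rw [← hb] at hb1 hbα
  have hbmin : ∀ k : ℕ, 1 ≤ k → k < b → α ≤ distInt (((k : ℕ) : ℤ) * ξ) := by
    intro k hk1 hk2
    have := Nat.find_min hex hk2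
    push Not at this
    exact this hk1
  set β := distInt (((b : ℕ) : ℤ) * ξ) with hβ
  have hβ0 : 0 < β := hpos b (by omega)
  have hnb : n < b := by
    by_contra hcon
    push Not at hcon
    have := hamin' b (by exact_mod_cast hb1) (by exact_mod_cast hcon)
    linarith
  -- Dirichlet gives b α ≤ 1
  have hbα1 : (b : ℝ) * α ≤ 1 := by
    have hb2 : 0 < b - 1 := by omega
    obtain ⟨q, hq1, hq2, hq3⟩ := exists_distInt_le ξ hb2
    have hqq : ((q.toNat : ℕ) : ℤ) = q := Int.toNat_of_nonneg (by omega)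
    have h4 := hbmin q.toNat (by omega) (by omega)
    rw [hqq] at h4
    have h5 : (((b - 1 : ℕ) : ℝ) + 1) = b := by
      have : b - 1 + 1 = b := by omega
      exact_mod_cast this
    rw [h5] at hq3
    have h6 := h4.trans hq3
    rw [le_div_iff₀ (by positivity)] at h6
    linarith
  have hab : (a : ℝ) < b := by
    have : a < b := by omega
    exact_mod_cast this
  have haR : (1 : ℝ) ≤ a := by exact_mod_cast ha1
  have hbR : (0 : ℝ) < b := by linarith
  have hQb : Q < b := by
    have : ((n : ℝ) + 1) ≤ (b : ℝ) := by exact_mod_cast hnb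
    linarith
  -- determinant
  set p := round ((a : ℝ) * ξ) with hp
  set p' := round (((b : ℤ) : ℝ) * ξ) with hp'
  set e1 := (a : ℝ) * ξ - p with he1
  set e2 := ((b : ℤ) : ℝ) * ξ - p' with he2
  have he1α : |e1| = α := rfl
  have he2β : |e2| = β := rfl
  have hdet : (b : ℝ) * e1 - a * e2 = ((a * p' - b * p : ℤ) : ℝ) := by
    rw [he1, he2]; push_cast; ring
  have haβ : (a : ℝ) * β < b * α := by
    calc (a : ℝ) * β < a * α := by
          apply mul_lt_mul_of_pos_left hbα; linarith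
      _ ≤ b * α := by
          apply mul_le_mul_of_nonneg_right hab.le hα0.le
  have haβ0 : 0 < (a : ℝ) * β := by positivity
  have h1 : |(b : ℝ) * e1| = b * α := by rw [abs_mul, he1α, abs_of_pos hbR]
  have h2 : |(a : ℝ) * e2| = a * β := by rw [abs_mul, he2β, abs_of_pos (by linarith)]
  have hD_lt : |((a * p' - b * p : ℤ) : ℝ)| < 2 := by
    rw [← hdet]
    have := abs_sub (b * e1) (a * e2)
    linarith
  have hD_pos : 0 < |((a * p' - b * p : ℤ) : ℝ)| := by
    rw [← hdet]
    have := abs_sub_abs_le_abs_sub (b * e1) (a * e2)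
    linarith
  have hD1 : |((a * p' - b * p : ℤ) : ℝ)| = 1 := by
    have h3 : |(a * p' - b * p : ℤ)| < 2 := by exact_mod_cast hD_lt
    have h4 : 0 < |(a * p' - b * p : ℤ)| := by exact_mod_cast hD_pos
    have h5 : |(a * p' - b * p : ℤ)| = 1 := by omega
    exact_mod_cast h5
  -- opposite signs
  have hD1' : |(b : ℝ) * e1 - a * e2| = 1 := by rw [hdet]; exact hD1
  have hsum : (b : ℝ) * α + a * β = 1 := by
    rcases (abs_eq hα0.le).mp he1α with h | h <;> rcases (abs_eq hβ0.le).mp he2β with h' | h' <;>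
      rw [h, h'] at hD1'
    · rw [abs_of_pos (by linarith)] at hD1'; linarith
    · rw [abs_of_pos (by linarith)] at hD1'; linarith
    · rw [abs_of_neg (by linarith)] at hD1'; linarith
    · rw [abs_of_neg (by linarith)] at hD1'; linarith
  have hcop : IsCoprime a (b : ℤ) := by
    have h5 : |(a * p' - b * p : ℤ)| = 1 := by exact_mod_cast hD1
    rcases (abs_eq (by norm_num)).mp h5 with h | h
    · exact ⟨p', -p, by linarith⟩
    · exact ⟨-p', p, by linarith⟩
  have ha60 : 60 < a := by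
    by_contra hcon
    push Not at hcon
    have h6 := hQ2 a ha1 hcon
    rw [← hα, div_lt_iff₀ hα0] at h6
    have : Q * α < b * α := mul_lt_mul_of_pos_right hQb hα0
    linarith
  refine ⟨a, b, α, β, ha60, ?_, ?_, hβ0, hbα, ?_, hcop, le_refl _, ?_⟩
  · have : (a : ℝ) ≤ n := by exact_mod_cast han
    linarith
  · exact_mod_cast hQb
  · exact_mod_cast hsum
  · have e : (((b : ℤ) - a : ℤ) : ℝ) * ξ = ((b : ℤ) : ℝ) * ξ - a * ξ := by push_cast; ring
    rw [e]
    have := distInt_sub_le (((b : ℤ) : ℝ) * ξ) (a * ξ)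
    linarith

/-- The linear inequalities coming from the multiples of the first vector. -/
lemma u_chain {A t : ℝ} (hA1 : A < 1) (ht : 1911 / 5000 < t) (hst : 2 * t ≤ A) :
    (1911 / 5000 < 2 * |2 * t - 1 * A| → 5 * (1911 / 5000) < 2 * A) ∧
    (1911 / 5000 < 2 * |2 * t - 1 * A| → 1911 / 5000 < 5 * |5 * t - 2 * A| →
      13 * (1911 / 5000) < 5 * A) ∧
    (1911 / 5000 < 2 * |2 * t - 1 * A| → 1911 / 5000 < 5 * |5 * t - 2 * A| →
      1911 / 5000 < 13 * |13 * t - 5 * A| → 34 * (1911 / 5000) < 13 * A) ∧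
    (1911 / 5000 < 2 * |2 * t - 1 * A| → 1911 / 5000 < 5 * |5 * t - 2 * A| →
      1911 / 5000 < 13 * |13 * t - 5 * A| → 1911 / 5000 < 34 * |34 * t - 13 * A| → False) := by
  have k2 : 1911 / 5000 < 2 * |2 * t - 1 * A| → 1911 / 5000 + 4 * t < 2 * A := by
    intro h
    rw [abs_of_nonpos (by linarith)] at h
    linarith
  have k5 : 1911 / 5000 < 2 * |2 * t - 1 * A| → 1911 / 5000 < 5 * |5 * t - 2 * A| →
      1911 / 5000 + 25 * t < 10 * A := by
    intro h h'
    have h1 := k2 h
    rcases le_total 0 (5 * t - 2 * A) with h2 | h2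
    · rw [abs_of_nonneg h2] at h'; exfalso; linarith
    · rw [abs_of_nonpos h2] at h'; linarith
  have k13 : 1911 / 5000 < 2 * |2 * t - 1 * A| → 1911 / 5000 < 5 * |5 * t - 2 * A| →
      1911 / 5000 < 13 * |13 * t - 5 * A| → 1911 / 5000 + 169 * t < 65 * A := by
    intro h h' h''
    have h1 := k5 h h'
    rcases le_total 0 (13 * t - 5 * A) with h2 | h2
    · rw [abs_of_nonneg h2] at h''; exfalso; linarith
    · rw [abs_of_nonpos h2] at h''; linarith
  refine ⟨?_, ?_, ?_, ?_⟩
  · intro h; have := k2 h; linarith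
  · intro h h'; have := k5 h h'; linarith
  · intro h h' h''; have := k13 h h' h''; linarith
  · intro h h' h'' h'''
    have h1 := k13 h h' h''
    rcases le_total 0 (34 * t - 13 * A) with h2 | h2
    · rw [abs_of_nonneg h2] at h'''; linarith
    · rw [abs_of_nonpos h2] at h'''; linarith

/-- A bad configuration from a bad pair. -/
lemma exists_bad_aux {ξ ζ Q : ℝ} {a b : ℤ} {α β s : ℝ} {N : ℤ} (ha : 60 < a)
    (haQ : (a : ℝ) ≤ Q) (hbQ : Q < b) (hβ : 0 < β) (hβα : β < α) (hαβ : b * α + a * β = 1)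
    (hcop : IsCoprime a b) (h1 : distInt (a * ξ) ≤ α) (h2 : distInt ((b - a : ℤ) * ξ) ≤ α + β)
    (hs : a * ζ = s + N) (hs0 : 0 ≤ s) (hs1 : s ≤ 1 / 2)
    (H : ∀ q : ℤ, 1 ≤ q → (q : ℝ) ≤ Q → 1911 / 5000 < Q * (distInt (q * ξ) * distInt (q * ζ))) :
    ∃ θ κ ε p s : ℝ, Bad θ κ ε p s := by
  have haR : (60 : ℝ) < a := by exact_mod_cast ha
  have hQ0 : 0 < Q := by linarith
  have hb0 : (0 : ℝ) < b := by linarith
  have hα : 0 < α := hβ.trans hβα
  have hab : a < b := by
    have : (a : ℝ) < b := haQ.trans_lt hbQ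
    exact_mod_cast this
  have H' : ∀ q : ℤ, q ≠ 0 → |(q : ℝ)| ≤ Q →
      1911 / 5000 < Q * (distInt (q * ξ) * distInt (q * ζ)) := by
    intro q hq hqQ
    rcases lt_or_gt_of_ne hq with h | h
    · have := H (-q) (by omega) (by push_cast; rwa [abs_of_neg (by exact_mod_cast h)] at hqQ)
      push_cast at this
      rwa [neg_mul, neg_mul, distInt_neg, distInt_neg] at this
    · exact H q (by omega) (by rwa [abs_of_pos (by exact_mod_cast h)] at hqQ)
  set θ : ℝ := (b - a) / b with hθ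
  set κ : ℝ := Q / b with hκ
  set ε : ℝ := Q * β with hε
  set p : ℝ := Int.fract (-((b - a : ℤ) * ζ)) with hp
  have hθb : θ * b = b - a := by rw [hθ]; field_simp
  have hκb : κ * b = Q := by rw [hκ]; field_simp
  have hε0 : 0 < ε := by positivity
  -- κ = Q α + ε (1 - θ)
  have hκA : κ = Q * α + ε * (1 - θ) := by
    have h : κ * b = (Q * α + ε * (1 - θ)) * b := by
      rw [hκb]
      have : (Q * α + ε * (1 - θ)) * b = Q * (b * α) + Q * β * (b - θ * b) := by
        rw [hε]; ring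
      rw [this, hθb]
      have : Q * (b * α) + Q * β * (b - (b - a)) = Q * (b * α + a * β) := by ring
      rw [this, hαβ, mul_one]
    exact mul_right_cancel₀ hb0.ne' h
  have h1θ : 0 < 1 - θ := by
    have : (1 - θ) * b = a := by rw [sub_mul, hθb]; ring
    by_contra hcon
    push Not at hcon
    have := mul_nonpos_of_nonpos_of_nonneg hcon hb0.le
    linarith
  have hu : 1 - θ ≤ κ := by
    have : (1 - θ) * b ≤ κ * b := by rw [hκb, sub_mul, hθb]; linarith
    exact le_of_mul_le_mul_right this hb0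
  have hθ0 : 0 ≤ θ := by
    rw [hθ]; apply div_nonneg _ hb0.le
    have : (a : ℝ) < b := by exact_mod_cast hab
    linarith
  have hκ1 : κ < 1 := by rw [hκ, div_lt_one hb0]; exact hbQ
  have hbα : b * α < 1 := by nlinarith
  have hA1 : Q * α < 1 := by
    have : Q * α < b * α := mul_lt_mul_of_pos_right hbQ hα
    linarith
  have hε1 : ε < 1 := by
    have : Q * β < Q * α := mul_lt_mul_of_pos_left hβα hQ0
    linarith
  have hp0 : 0 ≤ p := Int.fract_nonneg _
  have hp1 : p < 1 := Int.fract_lt_one _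
  -- the points of the strip
  have hpt : ∀ m i : ℕ, 1 ≤ m → m ≤ 60 → i ≤ m → |(i : ℝ) - m * θ| ≤ κ → ∀ n : ℤ,
      1911 / 5000 < (m * κ + ε * (m * θ - i)) * |((m : ℝ) - i) * p + i * s - n| := by
    intro m i hm1 hm2 him hstrip n
    have hmi0 : (0 : ℝ) ≤ (m : ℝ) - i := by
      have : (i : ℝ) ≤ m := by exact_mod_cast him
      linarith
    set q : ℤ := i * a - (m - i) * (b - a) with hq
    have hqR : (q : ℝ) = (i - m * θ) * b := by
      rw [hq]; push_cast
      have : (i - m * θ) * b = i * b - m * (θ * b) := by ring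
      rw [this, hθb]; ring
    have hq0 : q ≠ 0 := by
      intro h0
      have e : (i : ℤ) * b = m * (b - a) := by
        rw [hq] at h0; linarith
      have hdvd : b ∣ (m : ℤ) * (b - a) := ⟨i, by rw [← e]; ring⟩
      have hcop' : IsCoprime b (b - a) := by
        have h3 : IsCoprime b (-a) := hcop.symm.neg_right
        have h4 : b - a = -a + 1 * b := by ring
        rw [h4]
        exact IsCoprime.add_mul_right_right h3 1
      have h5 := hcop'.dvd_of_dvd_mul_right hdvd
      have h6 := Int.le_of_dvd (by omega) h5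
      omega
    have hqQ : |(q : ℝ)| ≤ Q := by
      rw [hqR, abs_mul, abs_of_pos hb0, ← hκb]
      exact mul_le_mul_of_nonneg_right hstrip hb0.le
    have h3 := H' q hq0 hqQ
    have h4 : distInt (q * ξ) ≤ i * α + (m - i) * (α + β) := by
      have e : (q : ℝ) * ξ = (i : ℕ) * (a * ξ) - ((m - i : ℕ) : ℝ) * ((b - a : ℤ) * ξ) := by
        rw [hq]; push_cast [Nat.cast_sub him]; ring
      rw [e]
      have h5 := distInt_sub_le ((i : ℕ) * (a * ξ)) (((m - i : ℕ) : ℝ) * ((b - a : ℤ) * ξ))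
      have h6 := distInt_nat_mul_le i (a * ξ)
      have h7 := distInt_nat_mul_le (m - i) ((b - a : ℤ) * ξ)
      have h8 := mul_le_mul_of_nonneg_left h1 (Nat.cast_nonneg (α := ℝ) i)
      have h9 := mul_le_mul_of_nonneg_left h2 (Nat.cast_nonneg (α := ℝ) (m - i))
      have e2 : (((m - i : ℕ)) : ℝ) = (m : ℝ) - i := by push_cast [Nat.cast_sub him]; ring
      rw [e2] at h5 h7 h9 ⊢
      linarith
    have h5 : distInt (q * ζ) ≤ |((m : ℝ) - i) * p + i * s - n| := by
      have h6 := distInt_le (q * ζ) (i * N + (m - i) * ⌊-((b - a : ℤ) * ζ)⌋ + n)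
      have h7 : -((b - a : ℤ) * ζ) = p + (⌊-((b - a : ℤ) * ζ)⌋ : ℝ) := by
        rw [hp]; exact (Int.fract_add_floor _).symm
      have e : (q : ℝ) * ζ - ((i * N + (m - i) * ⌊-((b - a : ℤ) * ζ)⌋ + n : ℤ) : ℝ) =
          ((m : ℝ) - i) * p + i * s - n := by
        have e1 : (q : ℝ) * ζ = i * (a * ζ) + (m - i) * (-((b - a : ℤ) * ζ)) := by
          rw [hq]; push_cast; ring
        push_cast at e1 h7 ⊢
        rw [e1, hs]
        linear_combination ((m : ℝ) - i) * h7
      rw [e] at h6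
      exact h6
    have h6 : Q * (i * α + (m - i) * (α + β)) = m * κ + ε * (m * θ - i) := by
      rw [hκA, hε]; ring
    calc 1911 / 5000 < Q * (distInt (q * ξ) * distInt (q * ζ)) := h3
      _ ≤ Q * ((i * α + (m - i) * (α + β)) * |((m : ℝ) - i) * p + i * s - n|) := by
          apply mul_le_mul_of_nonneg_left _ hQ0.le
          apply mul_le_mul h4 h5 (distInt_nonneg _)
          have : 0 ≤ (i : ℝ) * α := by positivity
          have := mul_nonneg hmi0 (show 0 ≤ α + β by linarith)
          linarith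
      _ = (m * κ + ε * (m * θ - i)) * |((m : ℝ) - i) * p + i * s - n| := by
          rw [← h6]; ring
  -- multiples of the first vector
  set A := Q * α with hA
  have hA0 : 0 < A := by positivity
  have hmul : ∀ k : ℕ, 1 ≤ k → k ≤ 60 → (k : ℝ) * (1 - θ) ≤ κ → ∀ n : ℤ,
      1911 / 5000 < k * |k * (A * s) - n * A| := by
    intro k hk1 hk2 hk3 n
    have h3 := hpt k k hk1 hk2 le_rfl (by
      rw [abs_of_nonneg]
      · linarith
      · have := mul_nonneg (Nat.cast_nonneg (α := ℝ) k) h1θ.le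
        linarith) n
    have e1 : (k * κ + ε * (k * θ - k)) = k * A := by rw [hκA]; ring
    have e2 : ((k : ℝ) - k) * p + k * s - n = k * s - n := by ring
    rw [e1, e2] at h3
    have e3 : (k : ℝ) * (A * s) - n * A = A * (k * s - n) := by ring
    rw [e3, abs_mul, abs_of_pos hA0]
    linarith
  have ht : 1911 / 5000 < A * s := by
    have := hmul 1 le_rfl (by norm_num) (by push_cast; linarith) 0
    push_cast at this
    rw [one_mul, one_mul, zero_mul, sub_zero, abs_of_nonneg (by positivity)] at this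
    exact this
  have hst : 2 * (A * s) ≤ A := by nlinarith
  obtain ⟨c2, c5, c13, c34⟩ := u_chain hA1 ht hst
  have m2 : 2 * (1 - θ) ≤ κ → 1911 / 5000 < 2 * |2 * (A * s) - 1 * A| := by
    intro h
    have := hmul 2 (by norm_num) (by norm_num) (by push_cast; exact h) 1
    push_cast at this; exact this
  have m5 : 5 * (1 - θ) ≤ κ → 1911 / 5000 < 5 * |5 * (A * s) - 2 * A| := by
    intro h
    have := hmul 5 (by norm_num) (by norm_num) (by push_cast; exact h) 2
    push_cast at this; exact this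
  have m13 : 13 * (1 - θ) ≤ κ → 1911 / 5000 < 13 * |13 * (A * s) - 5 * A| := by
    intro h
    have := hmul 13 (by norm_num) (by norm_num) (by push_cast; exact h) 5
    push_cast at this; exact this
  have m34 : 34 * (1 - θ) ≤ κ → 1911 / 5000 < 34 * |34 * (A * s) - 13 * A| := by
    intro h
    have := hmul 34 (by norm_num) (by norm_num) (by push_cast; exact h) 13
    push_cast at this; exact this
  have hAκ : A < κ := by
    have := mul_pos hε0 h1θ
    linarith
  have h34 : κ < 34 * (1 - θ) := by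
    by_contra hcon
    push Not at hcon
    exact c34 (m2 (by linarith)) (m5 (by linarith)) (m13 (by linarith)) (m34 hcon)
  have hw : θ ≤ κ := by
    rcases le_or_gt (2 * (1 - θ)) κ with h | h
    · have g2 := c2 (m2 h)
      rcases le_or_gt (5 * (1 - θ)) κ with h' | h'
      · have g5 := c5 (m2 h) (m5 h')
        rcases le_or_gt (13 * (1 - θ)) κ with h'' | h''
        · have g13 := c13 (m2 h) (m5 h') (m13 h'')
          linarith
        · linarith
      · linarith
    · linarith
  refine ⟨θ, κ, ε, p, s, ⟨hθ0, by linarith, hκ1, hε0.le, hε1.le, hp0, hp1.le, hs0, hs1, hu, hw,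
    h34, ?_, hpt⟩⟩
  intro h
  have g2 := c2 (m2 h)
  have e : κ - ε * (1 - θ) = A := by linarith
  rw [e]; exact g2

lemma exists_bad {ξ ζ Q : ℝ} {a b : ℤ} {α β : ℝ} (ha : 60 < a)
    (haQ : (a : ℝ) ≤ Q) (hbQ : Q < b) (hβ : 0 < β) (hβα : β < α) (hαβ : b * α + a * β = 1)
    (hcop : IsCoprime a b) (h1 : distInt (a * ξ) ≤ α) (h2 : distInt ((b - a : ℤ) * ξ) ≤ α + β)
    (H : ∀ q : ℤ, 1 ≤ q → (q : ℝ) ≤ Q → 1911 / 5000 < Q * (distInt (q * ξ) * distInt (q * ζ))) :
    ∃ θ κ ε p s : ℝ, Bad θ κ ε p s := by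
  have hle := distInt_le_half (a * ζ)
  rcases le_total 0 (a * ζ - round (a * ζ)) with h | h
  · refine exists_bad_aux (s := distInt (a * ζ)) (N := round (a * ζ)) ha haQ hbQ hβ hβα hαβ hcop
      h1 h2 ?_ (distInt_nonneg _) hle H
    unfold distInt
    rw [abs_of_nonneg h]; ring
  · refine exists_bad_aux (ζ := -ζ) (s := distInt (a * ζ)) (N := -round (a * ζ)) ha haQ hbQ hβ
      hβα hαβ hcop h1 h2 ?_ (distInt_nonneg _) hle ?_
    · unfold distInt
      rw [abs_of_nonpos h]; push_cast; ring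
    · intro q hq1 hq2
      have := H q hq1 hq2
      rwa [mul_neg, distInt_neg]

/-- If there is no bad configuration then the bound holds. -/
theorem L_le_of_no_bad (hno : ∀ θ κ ε p s : ℝ, ¬ Bad θ κ ε p s) (ξ ζ : ℝ) :
    L ξ ζ ≤ 1911 / 5000 := by
  by_cases hξ : Irrational ξ
  · apply L_le_of_eventually
    have hev : ∀ᶠ Q : ℝ in atTop, ∀ q ∈ Finset.Icc (1 : ℤ) 60, 1 / distInt (q * ξ) < Q := by
      rw [Filter.eventually_all_finset]
      intro q _
      exact eventually_gt_atTop _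
    filter_upwards [eventually_ge_atTop (1 : ℝ), hev] with Q hQ1 hQ2
    obtain ⟨a, b, α, β, ha, haQ, hbQ, hβ, hβα, hαβ, hcop, h1, h2⟩ :=
      exists_consecutive2 hξ hQ1 (fun q hq1 hq2 => hQ2 q (Finset.mem_Icc.mpr ⟨hq1, hq2⟩))
    by_contra hcon
    push Not at hcon
    obtain ⟨θ, κ, ε, p, s, hbad⟩ := exists_bad (ζ := ζ) ha haQ hbQ hβ hβα hαβ hcop h1 h2 (by
      intro q hq1 hq2
      have := mMin_le (ξ := ξ) (ζ := ζ) hq1 hq2
      exact hcon.trans_le (mul_le_mul_of_nonneg_left this (by linarith)))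
    exact hno θ κ ε p s hbad
  · unfold Irrational at hξ
    push Not at hξ
    obtain ⟨r, hr⟩ := hξ
    apply L_le_of_eventually
    filter_upwards [eventually_ge_atTop (1 : ℝ), eventually_ge_atTop ((r.den : ℝ))] with Q h1 h2
    have hq : (1 : ℤ) ≤ (r.den : ℤ) := by exact_mod_cast r.den_pos
    have hm := mMin_le (ξ := ξ) (ζ := ζ) (Q := Q) hq (by exact_mod_cast h2)
    have h0 : distInt (((r.den : ℤ) : ℝ) * ξ) = 0 := by
      have e : ((r.den : ℤ) : ℝ) * ξ = (r.num : ℝ) := by
        rw [← hr]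
        have := Rat.den_mul_eq_num r
        exact_mod_cast this
      rw [e]; exact distInt_int _
    rw [h0, zero_mul] at hm
    have : Q * mMin ξ ζ Q ≤ Q * 0 := mul_le_mul_of_nonneg_left hm (by linarith)
    linarith

end Pool.Agent.Lib_helper94.MDS
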