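import Mathlib
import Pool.Agent.Lib_helper94.MDSBasic

namespace Pool.Agent.Lib_helper94.MDS

open Filter
open Nat (fib)

/-- d'Ocagne's identity. -/
lemma fib_docagne (μ ν : ℕ) :
    (fib (μ + 1) : ℤ) * fib (μ + ν) - fib μ * fib (μ + ν + 1) = (-1) ^ μ * fib ν := by
  induction μ with
  | zero => simp
  | succ μ ih =>
    have h1 : fib (μ + 1 + 1) = fib μ + fib (μ + 1) := Nat.fib_add_two
    have h2 : fib (μ + 1 + ν + 1) = fib (μ + ν) + fib (μ + ν + 1) := by
      have : μ + 1 + ν + 1 = (μ + ν) + 2 := by ring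
      rw [this, Nat.fib_add_two]
    have h3 : μ + 1 + ν = μ + ν + 1 := by ring
    rw [h1, h2, h3]
    push_cast
    rw [pow_succ]
    linear_combination -ih

/-- The lattice `{(j, j F_{N+1} - k F_{N+2})}` has no point with small product of
coordinates. -/
lemma fib_lattice (N : ℕ) (j k : ℤ) (hj : j ≠ 0) (hjn : |j| < fib (N + 2)) :
    (fib N : ℤ) ≤ |j| * |j * fib (N + 1) - k * fib (N + 2)| := by
  -- choose `μ ≥ 1` with `fib (μ+1) ≤ |j| < fib (μ+2)`
  obtain ⟨μ, hμ1, hμa, hμb⟩ : ∃ μ : ℕ, 1 ≤ μ ∧ (fib (μ + 1) : ℤ) ≤ |j| ∧ |j| < fib (μ + 2) := by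
    have hex : ∃ m : ℕ, |j| < fib (m + 2) := ⟨N, hjn⟩
    classical
    have h1 : 1 ≤ |j| := Int.one_le_abs hj
    refine ⟨Nat.find hex, ?_, ?_, Nat.find_spec hex⟩
    · by_contra hcon
      have h0 : Nat.find hex = 0 := by omega
      have := Nat.find_spec hex
      rw [h0] at this
      simp at this
      omega
    · by_contra hcon
      push Not at hcon
      have hpos : 0 < Nat.find hex := by
        by_contra h0
        have h0 : Nat.find hex = 0 := by omega
        have := Nat.find_spec hex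
        rw [h0] at this
        simp at this
        omega
      have hlt : Nat.find hex - 1 < Nat.find hex := by omega
      apply Nat.find_min hex hlt
      have : Nat.find hex - 1 + 2 = Nat.find hex + 1 := by omega
      rw [this]; exact hcon
  -- `μ ≤ N`
  have hμN : μ ≤ N := by
    by_contra hcon
    push Not at hcon
    have : fib (N + 2) ≤ fib (μ + 1) := Nat.fib_mono (by omega)
    have : (fib (N + 2) : ℤ) ≤ fib (μ + 1) := by exact_mod_cast this
    omega
  obtain ⟨ν, rfl⟩ : ∃ ν, N = μ + ν := ⟨N - μ, by omega⟩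
  -- now `N + 1 = μ + (ν + 1)`
  have hd1 := fib_docagne μ (ν + 1)
  have hd2 := fib_docagne (μ + 1) ν
  have hcas := fib_docagne μ 1
  have e1 : μ + (ν + 1) = μ + ν + 1 := by ring
  have e2 : μ + 1 + ν = μ + ν + 1 := by ring
  rw [e1] at hd1
  rw [e2] at hd2
  have e3 : μ + 1 + 1 = μ + 2 := by ring
  have e4 : μ + ν + 1 + 1 = μ + ν + 2 := by ring
  rw [e4] at hd1 hd2
  rw [e3] at hd2
  have e5 : μ + 1 + 1 = μ + 2 := by ring
  rw [e5] at hcas
  simp only [Nat.fib_one, Nat.cast_one, mul_one] at hcas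
  set s : ℤ := (-1) ^ μ with hs
  have hs2 : s * s = 1 := by
    rw [hs, ← mul_pow]; norm_num
  set a : ℤ := s * (fib (μ + 1) * j - fib (μ + 2) * k) with ha
  set b : ℤ := s * (fib (μ + 1) * k - fib μ * j) with hb
  have hj' : j = a * fib (μ + 1) + b * fib (μ + 2) := by
    rw [ha, hb]
    linear_combination (-(j)) * hs2 + (- s * j) * hcas
  have hk' : k = a * fib μ + b * fib (μ + 1) := by
    rw [ha, hb]
    linear_combination (-(k)) * hs2 + (- s * k) * hcas
  have hr : j * fib (μ + ν + 1) - k * fib (μ + ν + 2) = s * (a * fib (ν + 1) - b * fib ν) := by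
    have hp : ((-1 : ℤ)) ^ (μ + 1) = - s := by rw [hs, pow_succ]; ring
    rw [hp] at hd2
    calc j * (fib (μ + ν + 1) : ℤ) - k * fib (μ + ν + 2)
        = a * (fib (μ + 1) * fib (μ + ν + 1) - fib μ * fib (μ + ν + 2)) +
          b * (fib (μ + 2) * fib (μ + ν + 1) - fib (μ + 1) * fib (μ + ν + 2)) := by
          rw [hj', hk']; ring_nf
      _ = s * (a * fib (ν + 1) - b * fib ν) := by rw [hd1, hd2]; ring
  have habs : |j * (fib (μ + ν + 1) : ℤ) - k * fib (μ + ν + 2)| = |a * fib (ν + 1) - b * fib ν| := by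
    rw [hr, abs_mul]
    have : |s| = 1 := by rw [hs, abs_pow]; simp
    rw [this, one_mul]
  rw [habs]
  have hf1 : (0 : ℤ) ≤ fib (μ + 1) := by positivity
  have hf2 : (0 : ℤ) ≤ fib (μ + 2) := by positivity
  have hf3 : (0 : ℤ) ≤ fib (ν + 1) := by positivity
  have hf4 : (0 : ℤ) ≤ fib ν := by positivity
  -- lower bound for the second factor
  have hlow : (fib (ν + 1) : ℤ) ≤ |a * fib (ν + 1) - b * fib ν| := by
    rcases lt_trichotomy b 0 with hb0 | hb0 | hb0
    · -- b < 0
      have ha0 : 0 < a := by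
        by_contra hcon
        push Not at hcon
        have : j ≤ - fib (μ + 2) := by
          rw [hj']; nlinarith
        have : (fib (μ + 2) : ℤ) ≤ |j| := by
          rw [abs_of_nonpos (by linarith)]; linarith
        omega
      have : (fib (ν + 1) : ℤ) ≤ a * fib (ν + 1) - b * fib ν := by nlinarith
      exact this.trans (le_abs_self _)
    · -- b = 0
      rw [hb0, zero_mul, sub_zero, abs_mul, abs_of_nonneg hf3]
      have ha0 : a ≠ 0 := by
        rintro h0
        apply hj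
        rw [hj', h0, hb0]; ring
      have : 1 ≤ |a| := Int.one_le_abs ha0
      nlinarith
    · -- b > 0
      have ha0 : a < 0 := by
        by_contra hcon
        push Not at hcon
        have : (fib (μ + 2) : ℤ) ≤ j := by
          rw [hj']; nlinarith
        have : (fib (μ + 2) : ℤ) ≤ |j| := this.trans (le_abs_self _)
        omega
      have : (fib (ν + 1) : ℤ) ≤ -(a * fib (ν + 1) - b * fib ν) := by nlinarith
      exact this.trans (neg_le_abs _)
  -- conclusion
  have hprod : (fib (μ + 1) : ℤ) * fib (ν + 1) ≤ |j| * |a * fib (ν + 1) - b * fib ν| :=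
    mul_le_mul hμa hlow hf3 (abs_nonneg _)
  refine le_trans ?_ hprod
  obtain ⟨μ', rfl⟩ : ∃ μ', μ = μ' + 1 := ⟨μ - 1, by omega⟩
  have h5 : fib (μ' + 1 + ν) = fib μ' * fib ν + fib (μ' + 1) * fib (ν + 1) := by
    have : μ' + 1 + ν = μ' + ν + 1 := by ring
    rw [this, Nat.fib_add]
  have h6 : fib (μ' + 1 + 1) = fib μ' + fib (μ' + 1) := Nat.fib_add_two
  have h7 : fib ν ≤ fib (ν + 1) := Nat.fib_le_fib_succ
  have : fib (μ' + 1 + ν) ≤ fib (μ' + 1 + 1) * fib (ν + 1) := by
    rw [h5, h6]; nlinarith [Nat.zero_le (fib μ')]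
  exact_mod_cast this

/-- lower bound for the products at the pair `(a / F, b / F)`. -/
lemma prod_lower (N : ℕ) {a b : ℤ} (hcop : IsCoprime a (fib (N + 2) : ℤ))
    (hcong : (fib (N + 2) : ℤ) ∣ a * fib (N + 1) - b) (q : ℤ)
    (hq : ¬ (fib (N + 2) : ℤ) ∣ q) :
    (fib N : ℝ) / (fib (N + 2) : ℝ) ^ 2 ≤
      distInt (q * ((a : ℝ) / fib (N + 2))) * distInt (q * ((b : ℝ) / fib (N + 2))) := by
  set F : ℕ := fib (N + 2) with hF
  have hFpos : 0 < F := Nat.fib_pos.mpr (by omega)
  have hFR : (0 : ℝ) < F := by exact_mod_cast hFpos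
  set r1 : ℤ := round ((q : ℝ) * ((a : ℝ) / F)) with hr1
  set r2 : ℤ := round ((q : ℝ) * ((b : ℝ) / F)) with hr2
  have h1 : distInt (q * ((a : ℝ) / F)) = |((q * a - r1 * F : ℤ) : ℝ)| / F := by
    unfold distInt
    rw [← hr1, eq_div_iff hFR.ne', ← abs_of_pos hFR, ← abs_mul, abs_of_pos hFR]
    congr 1
    push_cast
    field_simp
  have h2 : distInt (q * ((b : ℝ) / F)) = |((q * b - r2 * F : ℤ) : ℝ)| / F := by
    unfold distInt
    rw [← hr2, eq_div_iff hFR.ne', ← abs_of_pos hFR, ← abs_mul, abs_of_pos hFR]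
    congr 1
    push_cast
    field_simp
  set j : ℤ := q * a - r1 * F with hj
  obtain ⟨k0, hk0⟩ := hcong
  have hj0 : j ≠ 0 := by
    intro h0
    apply hq
    have hdvd : (F : ℤ) ∣ q * a := ⟨r1, by rw [hj] at h0; linarith⟩
    exact hcop.symm.dvd_of_dvd_mul_right hdvd
  have hjlt : |j| < F := by
    have h3 : distInt (q * ((a : ℝ) / F)) ≤ 1 / 2 := distInt_le_half _
    rw [h1, div_le_iff₀ hFR] at h3
    have h4 : |(j : ℝ)| < F := by linarith
    have : ((|j| : ℤ) : ℝ) < ((F : ℤ) : ℝ) := by push_cast; exact h4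
    exact_mod_cast this
  have hmain := fib_lattice N j (r2 - r1 * fib (N + 1) + q * k0 - 0) hj0 hjlt
  have he : q * b - r2 * F = j * fib (N + 1) -
      (r2 - r1 * fib (N + 1) + q * k0 - 0) * fib (N + 2) := by
    rw [hj]
    have : b = a * fib (N + 1) - F * k0 := by linarith
    rw [this, ← hF]; ring
  rw [← he] at hmain
  rw [h1, h2, div_mul_div_comm, ← pow_two]
  apply div_le_div_of_nonneg_right _ (by positivity)
  have : ((fib N : ℤ) : ℝ) ≤ ((|j| * |q * b - r2 * F| : ℤ) : ℝ) := by exact_mod_cast hmain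
  push_cast at this
  push_cast
  exact this

end Pool.Agent.Lib_helper94.MDS
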