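import Mathlib
import Pool.Agent.Lib_helper94.MDSSound

/-!
Soundness of the certificate checker: the main induction.
-/

namespace Pool.Agent.Lib_helper94.MDS

variable {θ κ ε p s : ℝ}

lemma branches_spec {m n a' b' e e' p' s' : ℕ} :
    ∀ {cnt k : ℕ}, branches m n a' b' e e' p' s' cnt k = true →
      ∀ t, t ≤ cnt → branch m n (k + t) a' b' e e' p' s' = true := by
  intro cnt
  induction cnt with
  | zero =>
    intro k h t ht
    have : t = 0 := by omega
    subst this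
    exact h
  | succ c ih =>
    intro k h t ht
    unfold branches at h
    rw [Bool.and_eq_true] at h
    rcases Nat.eq_zero_or_pos t with rfl | h0
    · exact h.1
    · have := ih h.2 (t - 1) (by omega)
      have e1 : k + 1 + (t - 1) = k + t := by omega
      rwa [e1] at this

lemma branch_use (h : Bad θ κ ε p s) {m n k a' b' e e' p' s' : ℕ} (hkm : k ≤ m)
    (hθ : θ * DD ≤ a') (hκ : κ * DD ≤ b') (he : (e : ℝ) ≤ ε * DD)
    (he' : ε * DD ≤ e') (hp : p * DD ≤ p') (hs : s * DD ≤ s')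
    (hy : 0 ≤ m * κ + ε * (m * θ - k))
    (hb : branch m n k a' b' e e' p' s' = true)
    (hz : (n : ℝ) ≤ ((m : ℝ) - k) * p + k * s) :
    (m * κ + ε * (m * θ - k)) * (((m : ℝ) - k) * p + k * s - n) ≤ 1911 / 5000 := by
  refine branch_le hy hz (yHi_le m k hθ hκ he he') (zHi_le m k hkm hp hs) ?_
  unfold branch at hb
  exact Nat.le_of_ble_eq_true hb

lemma strip_spec {m i a a' b : ℕ} (h : strip m i a a' b = true) (hθ : (a : ℝ) ≤ θ * DD)
    (hθ' : θ * DD ≤ a') (hκ : (b : ℝ) ≤ κ * DD) : |(i : ℝ) - m * θ| ≤ κ := by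
  have hD := DD_pos
  unfold strip at h
  rw [Bool.and_eq_true] at h
  have h1 := Nat.le_of_ble_eq_true h.1
  have h2 := Nat.le_of_ble_eq_true h.2
  have h1' : (i : ℝ) * DD ≤ b + m * a := by exact_mod_cast h1
  have h2' : (m : ℝ) * a' ≤ b + i * DD := by exact_mod_cast h2
  have h3 := mul_le_mul_of_nonneg_left hθ (Nat.cast_nonneg (α := ℝ) m)
  have h4 := mul_le_mul_of_nonneg_left hθ' (Nat.cast_nonneg (α := ℝ) m)
  rw [abs_le]
  constructor
  · have : -κ * DD ≤ (i - m * θ) * DD := by linarith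
    exact le_of_mul_le_mul_right this hD
  · have : (i - m * θ) * DD ≤ κ * DD := by linarith
    exact le_of_mul_le_mul_right this hD

/-- the upper bound for `κ - ε (1 - θ)` -/
lemma A_le {a' b' e : ℕ} (hθ1 : θ ≤ 1) (hθ' : θ * DD ≤ a') (hκ' : κ * DD ≤ b')
    (he : (e : ℝ) ≤ ε * DD) :
    (κ - ε * (1 - θ)) * (DD : ℝ) ^ 2 ≤ ((b' * DD - e * (DD - a') : ℕ) : ℝ) := by
  have hD := DD_pos
  refine le_trans ?_ (cast_sub_ge _ _)
  have h1 : ((b' * DD : ℕ) : ℝ) = b' * DD := by push_cast; rfl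
  have h2 : ((e * (DD - a') : ℕ) : ℝ) = e * ((DD - a' : ℕ) : ℝ) := by push_cast; rfl
  rw [h1, h2]
  have h3 : ((DD - a' : ℕ) : ℝ) ≤ (1 - θ) * DD := by
    rcases le_total a' DD with h | h
    · rw [Nat.cast_sub h]; linarith
    · rw [Nat.sub_eq_zero_of_le h, Nat.cast_zero]
      exact mul_nonneg (by linarith) hD.le
  have h4 : (e : ℝ) * ((DD - a' : ℕ) : ℝ) ≤ (ε * DD) * ((1 - θ) * DD) :=
    mul_le_mul he h3 (Nat.cast_nonneg _) ((Nat.cast_nonneg e).trans he)
  have h5 := mul_le_mul_of_nonneg_right hκ' hD.le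
  have e1 : (κ - ε * (1 - θ)) * (DD : ℝ) ^ 2 = κ * DD * DD - (ε * DD) * ((1 - θ) * DD) := by ring
  rw [e1]
  linarith

lemma B_le {a' b' e' : ℕ} (hθ0 : 0 ≤ θ) (hθ' : θ * DD ≤ a') (hκ' : κ * DD ≤ b')
    (he : ε * DD ≤ e') :
    (κ + ε * θ) * (DD : ℝ) ^ 2 ≤ ((b' * DD + e' * a' : ℕ) : ℝ) := by
  have hD := DD_pos
  push_cast
  have h4 : (ε * DD) * (θ * DD) ≤ (e' : ℝ) * a' :=
    mul_le_mul he hθ' (mul_nonneg hθ0 hD.le) (Nat.cast_nonneg e')
  have h5 := mul_le_mul_of_nonneg_right hκ' hD.le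
  have e1 : (κ + ε * θ) * (DD : ℝ) ^ 2 = κ * DD * DD + (ε * DD) * (θ * DD) := by ring
  rw [e1]
  linarith

theorem check_sound (T : Cert) : ∀ {a a' b b' e e' p₀ p₁ s₀ s₁ : ℕ},
    check T a a' b b' e e' p₀ p₁ s₀ s₁ = true → ∀ {θ κ ε p s : ℝ}, Bad θ κ ε p s →
    (a : ℝ) ≤ θ * DD → θ * DD ≤ a' → (b : ℝ) ≤ κ * DD → κ * DD ≤ b' →
    (e : ℝ) ≤ ε * DD → ε * DD ≤ e' → (p₀ : ℝ) ≤ p * DD → p * DD ≤ p₁ →
    (s₀ : ℝ) ≤ s * DD → s * DD ≤ s₁ → False := by
  induction T with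
  | b0 mid l r ihl ihr =>
    intro a a' b b' e e' p₀ p₁ s₀ s₁ hc θ κ ε p s h ha ha' hb hb' he he' hp hp' hs hs'
    simp only [check, Bool.and_eq_true] at hc
    rcases le_total (θ * DD) (mid : ℝ) with hm | hm
    · exact ihl hc.1 h ha hm hb hb' he he' hp hp' hs hs'
    · exact ihr hc.2 h hm ha' hb hb' he he' hp hp' hs hs'
  | b1 mid l r ihl ihr =>
    intro a a' b b' e e' p₀ p₁ s₀ s₁ hc θ κ ε p s h ha ha' hb hb' he he' hp hp' hs hs'
    simp only [check, Bool.and_eq_true] at hc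
    rcases le_total (κ * DD) (mid : ℝ) with hm | hm
    · exact ihl hc.1 h ha ha' hb hm he he' hp hp' hs hs'
    · exact ihr hc.2 h ha ha' hm hb' he he' hp hp' hs hs'
  | b2 mid l r ihl ihr =>
    intro a a' b b' e e' p₀ p₁ s₀ s₁ hc θ κ ε p s h ha ha' hb hb' he he' hp hp' hs hs'
    simp only [check, Bool.and_eq_true] at hc
    rcases le_total (ε * DD) (mid : ℝ) with hm | hm
    · exact ihl hc.1 h ha ha' hb hb' he hm hp hp' hs hs'
    · exact ihr hc.2 h ha ha' hb hb' hm he' hp hp' hs hs'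
  | b3 mid l r ihl ihr =>
    intro a a' b b' e e' p₀ p₁ s₀ s₁ hc θ κ ε p s h ha ha' hb hb' he he' hp hp' hs hs'
    simp only [check, Bool.and_eq_true] at hc
    rcases le_total (p * DD) (mid : ℝ) with hm | hm
    · exact ihl hc.1 h ha ha' hb hb' he he' hp hm hs hs'
    · exact ihr hc.2 h ha ha' hb hb' he he' hm hp' hs hs'
  | b4 mid l r ihl ihr =>
    intro a a' b b' e e' p₀ p₁ s₀ s₁ hc θ κ ε p s h ha ha' hb hb' he he' hp hp' hs hs'
    simp only [check, Bool.and_eq_true] at hc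
    rcases le_total (s * DD) (mid : ℝ) with hm | hm
    · exact ihl hc.1 h ha ha' hb hb' he he' hp hp' hs hm
    · exact ihr hc.2 h ha ha' hb hb' he he' hp hp' hm hs'
  | g0 =>
    intro a a' b b' e e' p₀ p₁ s₀ s₁ hc θ κ ε p s h ha ha' hb hb' he he' hp hp' hs hs'
    have hθ1 : θ ≤ 1 := (h.hw.trans_lt h.hκ1).le
    simp only [check] at hc
    have hc := Nat.le_of_ble_eq_true hc
    have hA := A_le hθ1 ha' hb' he
    have hu := h.hpt 1 1 le_rfl (by norm_num) le_rfl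
      (by push_cast; rw [abs_le]; constructor <;> linarith [h.hu, h.hθ0, h.hκ0]) 0
    push_cast at hu
    have e3 : ((1 : ℝ) * κ + ε * (1 * θ - 1)) = κ - ε * (1 - θ) := by ring
    have e4 : ((1 : ℝ) - 1) * p + 1 * s - 0 = s := by ring
    rw [e3, e4, abs_of_nonneg h.hs0] at hu
    have hD := DD_pos
    have h4 : ((cD : ℕ) : ℝ) = 5000 := by norm_num [cD]
    have h5 : ((cN : ℕ) : ℝ) = 1911 := by norm_num [cN]
    have hc' : ((b' * DD - e * (DD - a') : ℕ) : ℝ) * cD ≤ 2 * cN * DD * DD := by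
      exact_mod_cast hc
    rw [h4, h5] at hc'
    have h6 : (κ - ε * (1 - θ)) * (DD : ℝ) ^ 2 ≤ 2 * (1911 / 5000) * (DD : ℝ) ^ 2 := by nlinarith
    have h7 := le_of_mul_le_mul_right h6 (by positivity)
    have hpos : 0 < κ - ε * (1 - θ) := by
      by_contra hcon
      push Not at hcon
      have := mul_nonpos_of_nonpos_of_nonneg hcon h.hs0
      linarith
    have h8 : (κ - ε * (1 - θ)) * s ≤ (κ - ε * (1 - θ)) * (1 / 2) :=
      mul_le_mul_of_nonneg_left h.hs1 hpos.le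
    linarith
  | g1 =>
    intro a a' b b' e e' p₀ p₁ s₀ s₁ hc θ κ ε p s h ha ha' hb hb' he he' hp hp' hs hs'
    simp only [check] at hc
    have hc := Nat.le_of_ble_eq_true hc
    have hD := DD_pos
    have h1 := cast_sub_ge DD a
    have h2 : (34 : ℝ) * ((DD - a : ℕ) : ℝ) ≤ b := by exact_mod_cast hc
    have h3 : 34 * (1 - θ) * DD ≤ κ * DD := by linarith
    have h4 := le_of_mul_le_mul_right h3 hD
    linarith [h.h34]
  | g2 =>
    intro a a' b b' e e' p₀ p₁ s₀ s₁ hc θ κ ε p s h ha ha' hb hb' he he' hp hp' hs hs'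
    have hθ1 : θ ≤ 1 := (h.hw.trans_lt h.hκ1).le
    simp only [check, Bool.and_eq_true] at hc
    have hc1 := Nat.le_of_ble_eq_true hc.1
    have hc2 := Nat.le_of_ble_eq_true hc.2
    have hD := DD_pos
    have h1 := cast_sub_ge DD a
    have h2 : (2 : ℝ) * ((DD - a : ℕ) : ℝ) ≤ b := by exact_mod_cast hc1
    have h3 : 2 * (1 - θ) * DD ≤ κ * DD := by linarith
    have h4 := h.h2 (le_of_mul_le_mul_right h3 hD)
    have hA := A_le hθ1 ha' hb' he
    have h5 : ((cD : ℕ) : ℝ) = 5000 := by norm_num [cD]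
    have h6 : ((cN : ℕ) : ℝ) = 1911 := by norm_num [cN]
    have hc' : 2 * ((b' * DD - e * (DD - a') : ℕ) : ℝ) * cD ≤ 5 * cN * DD * DD := by
      exact_mod_cast hc2
    rw [h5, h6] at hc'
    have h7 : 2 * (κ - ε * (1 - θ)) * (DD : ℝ) ^ 2 ≤ 5 * (1911 / 5000) * (DD : ℝ) ^ 2 := by
      nlinarith
    have h8 := le_of_mul_le_mul_right h7 (by positivity)
    linarith
  | g3 =>
    intro a a' b b' e e' p₀ p₁ s₀ s₁ hc θ κ ε p s h ha ha' hb hb' he he' hp hp' hs hs'
    have hθ1 : θ ≤ 1 := (h.hw.trans_lt h.hκ1).le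
    simp only [check] at hc
    have hc := Nat.le_of_ble_eq_true hc
    have hA := A_le hθ1 ha' hb' he
    have hu := h.hpt 1 1 le_rfl (by norm_num) le_rfl
      (by push_cast; rw [abs_le]; constructor <;> linarith [h.hu, h.hθ0, h.hκ0]) 0
    push_cast at hu
    have e3 : ((1 : ℝ) * κ + ε * (1 * θ - 1)) = κ - ε * (1 - θ) := by ring
    have e4 : ((1 : ℝ) - 1) * p + 1 * s - 0 = s := by ring
    rw [e3, e4] at hu
    exact point_false hu hA (by rw [abs_of_nonneg h.hs0]; exact hs') hc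
  | g4 =>
    intro a a' b b' e e' p₀ p₁ s₀ s₁ hc θ κ ε p s h ha ha' hb hb' he he' hp hp' hs hs'
    simp only [check] at hc
    have hc := Nat.le_of_ble_eq_true hc
    have hB := B_le h.hθ0 ha' hb' he'
    have hu := h.hpt 1 0 le_rfl (by norm_num) (by norm_num)
      (by push_cast; rw [abs_le]; constructor <;> linarith [h.hw, h.hθ0, h.hκ0]) 0
    have hz := zAbs_le (p := p) (s := 0) (p₀ := p₀) (p₁ := p₁) (s₀ := 0) (s₁ := 0) 1 0 0
      (by norm_num) hp hp' (by simp) (by simp)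
    push_cast at hu hz
    have e1 : ((1 : ℝ) * κ + ε * (1 * θ - 0)) = κ + ε * θ := by ring
    have e2 : ((1 : ℝ) - 0) * p + 0 * s - 0 = p := by ring
    have e3 : ((1 : ℝ) - 0) * p + 0 * 0 - 0 = p := by ring
    rw [e1, e2] at hu
    rw [e3] at hz
    exact point_false hu hB hz hc
  | g5 =>
    intro a a' b b' e e' p₀ p₁ s₀ s₁ hc θ κ ε p s h ha ha' hb hb' he he' hp hp' hs hs'
    simp only [check] at hc
    have hc := Nat.le_of_ble_eq_true hc
    have hB := B_le h.hθ0 ha' hb' he'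
    have hu0 := h.hpt 1 0 le_rfl (by norm_num) (by norm_num)
      (by push_cast; rw [abs_le]; constructor <;> linarith [h.hw, h.hθ0, h.hκ0]) 0
    have hu1 := h.hpt 1 0 le_rfl (by norm_num) (by norm_num)
      (by push_cast; rw [abs_le]; constructor <;> linarith [h.hw, h.hθ0, h.hκ0]) 1
    push_cast at hu0 hu1
    have e1 : ((1 : ℝ) * κ + ε * (1 * θ - 0)) = κ + ε * θ := by ring
    have e2 : ((1 : ℝ) - 0) * p + 0 * s - 0 = p := by ring
    have e3 : ((1 : ℝ) - 0) * p + 0 * s - 1 = p - 1 := by ring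
    rw [e1, e2, abs_of_nonneg h.hp0] at hu0
    rw [e1, e3, abs_of_nonpos (by linarith [h.hp1])] at hu1
    have hD := DD_pos
    have h4 : ((cD : ℕ) : ℝ) = 5000 := by norm_num [cD]
    have h5 : ((cN : ℕ) : ℝ) = 1911 := by norm_num [cN]
    have hc' : ((b' * DD + e' * a' : ℕ) : ℝ) * cD ≤ 2 * cN * DD * DD := by
      exact_mod_cast hc
    rw [h4, h5] at hc'
    have h6 : (κ + ε * θ) * (DD : ℝ) ^ 2 ≤ 2 * (1911 / 5000) * (DD : ℝ) ^ 2 := by nlinarith
    have h7 := le_of_mul_le_mul_right h6 (by positivity)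
    nlinarith
  | g6 =>
    intro a a' b b' e e' p₀ p₁ s₀ s₁ hc θ κ ε p s h ha ha' hb hb' he he' hp hp' hs hs'
    simp only [check] at hc
    have hc := Nat.le_of_ble_eq_true hc
    have hB := B_le h.hθ0 ha' hb' he'
    have hu := h.hpt 1 0 le_rfl (by norm_num) (by norm_num)
      (by push_cast; rw [abs_le]; constructor <;> linarith [h.hw, h.hθ0, h.hκ0]) 1
    have hz := zAbs_le (p := p) (s := 0) (p₀ := p₀) (p₁ := p₁) (s₀ := 0) (s₁ := 0) 1 0 1
      (by norm_num) hp hp' (by simp) (by simp)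
    push_cast at hu hz
    have e1 : ((1 : ℝ) * κ + ε * (1 * θ - 0)) = κ + ε * θ := by ring
    have e2 : ((1 : ℝ) - 0) * p + 0 * s - 1 = p - 1 := by ring
    have e3 : ((1 : ℝ) - 0) * p + 0 * 0 - 1 = p - 1 := by ring
    rw [e1, e2] at hu
    rw [e3] at hz
    exact point_false hu hB hz hc
  | c m i n =>
    intro a a' b b' e e' p₀ p₁ s₀ s₁ hc θ κ ε p s h ha ha' hb hb' he he' hp hp' hs hs'
    simp only [check, Bool.and_eq_true] at hc
    obtain ⟨⟨⟨⟨h1, h2⟩, h3⟩, h4⟩, h5⟩ := hc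
    have h1 := Nat.le_of_ble_eq_true h1
    have h2 := Nat.le_of_ble_eq_true h2
    have h3 := Nat.le_of_ble_eq_true h3
    have h5 := Nat.le_of_ble_eq_true h5
    have hu := h.hpt m i h1 h2 h3 (strip_spec h4 ha ha' hb) n
    push_cast at hu
    exact point_false hu (yHi_le m i ha' hb' he he') (zAbs_le m i n h3 hp hp' hs hs') h5
  | j m n i cnt =>
    intro a a' b b' e e' p₀ p₁ s₀ s₁ hc θ κ ε p s h ha ha' hb hb' he he' hp hp' hs hs'
    have hθ1 : θ < 1 := h.hw.trans_lt h.hκ1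
    have hD := DD_pos
    simp only [check, Bool.and_eq_true, Bool.or_eq_true] at hc
    obtain ⟨⟨⟨⟨⟨⟨⟨⟨h1, h2⟩, h3⟩, h4⟩, h5⟩, h6⟩, h7⟩, h8⟩, h9⟩ := hc
    have h1 := Nat.le_of_ble_eq_true h1
    have h2 := Nat.le_of_ble_eq_true h2
    have h3 := Nat.le_of_ble_eq_true h3
    have h4 := Nat.le_of_ble_eq_true h4
    have h5 := Nat.le_of_ble_eq_true h5
    have h6 := Nat.le_of_ble_eq_true h6
    have h7 := Nat.le_of_ble_eq_true h7
    have h8 := branches_spec h8
    have hm0 : (0 : ℝ) ≤ m := Nat.cast_nonneg m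
    have hmR : (2 : ℝ) ≤ m := by exact_mod_cast h1
    -- bounds on m θ
    have h6' : (i : ℝ) ≤ m * θ := by
      have h : (i : ℝ) * DD ≤ m * a := by exact_mod_cast h6
      have h' := mul_le_mul_of_nonneg_left ha hm0
      have : (i : ℝ) * DD ≤ (m * θ) * DD := by linarith
      exact le_of_mul_le_mul_right this hD
    have h7' : (m : ℝ) * θ ≤ i + cnt := by
      have h : (m : ℝ) * a' ≤ (i + cnt) * DD := by exact_mod_cast h7
      have h' := mul_le_mul_of_nonneg_left ha' hm0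
      have : (m * θ) * DD ≤ (i + cnt : ℝ) * DD := by linarith
      exact le_of_mul_le_mul_right this hD
    -- choose t
    obtain ⟨t, ht, ht1, ht2⟩ : ∃ t : ℕ, t + 1 ≤ cnt ∧ ((i + t : ℕ) : ℝ) ≤ m * θ ∧
        (m : ℝ) * θ ≤ ((i + t : ℕ) : ℝ) + 1 := by
      have hmθ0 : 0 ≤ (m : ℝ) * θ := mul_nonneg hm0 h.hθ0
      by_cases hcase : (m : ℝ) * θ < i + cnt
      · refine ⟨⌊(m : ℝ) * θ⌋₊ - i, ?_, ?_, ?_⟩
        · have h10 : ⌊(m : ℝ) * θ⌋₊ < i + cnt := by
            rw [Nat.floor_lt hmθ0]; push_cast; exact hcase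
          omega
        · have h10 : i ≤ ⌊(m : ℝ) * θ⌋₊ := Nat.le_floor h6'
          have e1 : i + (⌊(m : ℝ) * θ⌋₊ - i) = ⌊(m : ℝ) * θ⌋₊ := by omega
          rw [e1]; exact Nat.floor_le hmθ0
        · have h10 : i ≤ ⌊(m : ℝ) * θ⌋₊ := Nat.le_floor h6'
          have e1 : i + (⌊(m : ℝ) * θ⌋₊ - i) = ⌊(m : ℝ) * θ⌋₊ := by omega
          rw [e1]; exact (Nat.lt_floor_add_one _).le
      · push Not at hcase
        refine ⟨cnt - 1, by omega, ?_, ?_⟩
        · have : ((i + (cnt - 1) : ℕ) : ℝ) ≤ i + cnt := by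
            push_cast [Nat.cast_sub h4]; linarith
          linarith
        · push_cast [Nat.cast_sub h4]; linarith
    set k := i + t with hk
    have hkm : k + 1 ≤ m := by omega
    have hy1 : 0 ≤ m * κ + ε * (m * θ - (k : ℕ)) := by
      have := mul_nonneg h.hε0 (sub_nonneg.mpr ht1)
      have : 0 ≤ (m : ℝ) * κ := mul_nonneg hm0 (by linarith [h.hκ0])
      linarith
    have hy2 : 0 ≤ m * κ + ε * (m * θ - ((k + 1 : ℕ) : ℝ)) := by
      push_cast
      have h10 : ε * ((k : ℝ) + 1 - m * θ) ≤ 1 * 1 := by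
        apply mul_le_mul h.hε1 _ _ (by norm_num)
        · linarith
        · linarith
      have h11 : (2 : ℝ) * (3 / 4) ≤ m * κ := mul_le_mul hmR h.hκ0 (by norm_num) hm0
      linarith
    have hb1 := branch_use h (show k ≤ m by omega) ha' hb' he he' hp' hs' hy1
      (h8 t (by omega))
    have hb2 := branch_use h hkm ha' hb' he he' hp' hs' hy2
      (by have := h8 (t + 1) (by omega); rwa [← add_assoc] at this)
    push_cast at hb2
    have hcD : ((cD : ℕ) : ℝ) = 5000 := by norm_num [cD]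
    have hcN : ((cN : ℕ) : ℝ) = 1911 := by norm_num [cN]
    rcases h9 with h9 | h9
    · have h9 := Nat.le_of_ble_eq_true h9
      have h9' : (n : ℝ) * m * cD ≤ cN * (m * m + 1) := by exact_mod_cast h9
      rw [hcD, hcN] at h9'
      exact h.J_full m n k h1 h2 h3 hkm ht1 ht2 hb1 hb2 (by nlinarith)
    · obtain ⟨⟨⟨h9a, h9b⟩, h9c⟩, h9d⟩ := h9
      have h9a := Nat.le_of_ble_eq_true h9a
      have h9d := Nat.le_of_ble_eq_true h9d
      have ht0 : t = 0 := by omega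
      have hki : k = i := by omega
      rw [← hki] at h9b h9c
      have hst1 := strip_spec h9b ha ha' hb
      have hst2 := strip_spec h9c ha ha' hb
      push_cast at hst2
      have h10 := h.J_both m n k (by omega) h2 hkm ht1 ht2 hst1 hst2 hb1 hb2
      have h11 : (n : ℝ) * m * b' * cD ≤ cN * (m * m + 1) * DD := by exact_mod_cast h9d
      rw [hcD, hcN] at h11
      have h12 : (n : ℝ) * m * (κ * DD) ≤ n * m * b' :=
        mul_le_mul_of_nonneg_left hb' (by positivity)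
      have h13 : (n : ℝ) * m * κ * DD ≤ 1911 / 5000 * ((m : ℝ) ^ 2 + 1) * DD := by nlinarith
      have h14 := le_of_mul_le_mul_right h13 hD
      linarith

end Pool.Agent.Lib_helper94.MDS
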