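import Mathlib
import Pool.Agent.Lib_helper94.MDSSound2
import Pool.Agent.Lib_helper94.MDSConf
import Pool.Agent.Lib_helper94.Cert.A2

/-!
The upper bound `1911 / 5000` for the multiplicative Dirichlet spectrum: the certificate is
checked by the kernel.
-/

namespace Pool.Agent.Lib_helper94.MDS

theorem cert_ok : check at177 0 1073741824 805306368 1073741824 0 1073741824 0 1073741824 0
    536870912 = true := by decide +kernel

theorem no_bad (θ κ ε p s : ℝ) : ¬ Bad θ κ ε p s := by
  intro h
  have hD : ((DD : ℕ) : ℝ) = 1073741824 := by norm_num [DD]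
  have hθ1 : θ ≤ 1 := (h.hw.trans_lt h.hκ1).le
  refine check_sound at177 cert_ok h ?_ ?_ ?_ ?_ ?_ ?_ ?_ ?_ ?_ ?_
  · have := h.hθ0; rw [hD]; push_cast; linarith
  · rw [hD]; push_cast; linarith
  · have := h.hκ0; rw [hD]; push_cast; linarith
  · have := h.hκ1; rw [hD]; push_cast; linarith
  · have := h.hε0; rw [hD]; push_cast; linarith
  · have := h.hε1; rw [hD]; push_cast; linarith
  · have := h.hp0; rw [hD]; push_cast; linarith
  · have := h.hp1; rw [hD]; push_cast; linarith
  · have := h.hs0; rw [hD]; push_cast; linarith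
  · have := h.hs1; rw [hD]; push_cast; linarith

theorem L_le_final (ξ ζ : ℝ) : L ξ ζ ≤ 1911 / 5000 := L_le_of_no_bad no_bad ξ ζ

end Pool.Agent.Lib_helper94.MDS
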