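import Mathlib
import Pool.Agent.Lib_helper94.MDSFib

namespace Pool.Agent.Lib_helper94.MDS

open Filter Topology
open Nat (fib)

/-- The Fibonacci step on pairs of residues. -/
def fibStep (D : ℕ) : Equiv.Perm (ZMod D × ZMod D) where
  toFun p := (p.2, p.1 + p.2)
  invFun p := (p.2 - p.1, p.1)
  left_inv p := by ext <;> simp
  right_inv p := by ext <;> simp

lemma fibStep_pow (D n : ℕ) :
    ((fibStep D) ^ n) (0, 1) = ((fib n : ZMod D), (fib (n + 1) : ZMod D)) := by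
  induction n with
  | zero => simp
  | succ n ih =>
    rw [pow_succ', Equiv.Perm.mul_apply, ih]
    simp only [fibStep, Equiv.coe_fn_mk]
    rw [show fib (n + 1 + 1) = fib n + fib (n + 1) from Nat.fib_add_two]
    push_cast
    rfl

lemma exists_dvd_fib (D : ℕ) (hD : 0 < D) : ∃ h : ℕ, 0 < h ∧ D ∣ fib h := by
  have : NeZero D := ⟨hD.ne'⟩
  obtain ⟨n, hn, h⟩ := isOfFinOrder_iff_pow_eq_one.mp (isOfFinOrder_of_finite (fibStep D))
  refine ⟨n, hn, ?_⟩
  have h1 := fibStep_pow D n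
  rw [h] at h1
  have h2 : (fib n : ZMod D) = 0 := by
    have := congrArg Prod.fst h1
    simpa using this.symm
  exact (ZMod.natCast_eq_zero_iff _ _).mp h2

lemma approx {ψ : ℝ} (hψ : Irrational ψ) (x : ℝ) {δ : ℝ} (hδ : 0 < δ) :
    ∃ i m : ℤ, |i * ψ - m - x| < δ := by
  have hd : Dense ((AddSubgroup.closure {ψ, 1} : AddSubgroup ℝ) : Set ℝ) := by
    rw [dense_addSubgroupClosure_pair_iff]; simpa using hψ
  obtain ⟨z, hz, hz2⟩ := hd.exists_dist_lt x hδ
  rw [SetLike.mem_coe, AddSubgroup.mem_closure_pair] at hz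
  obtain ⟨i, m, rfl⟩ := hz
  refine ⟨i, -m, ?_⟩
  rw [Real.dist_eq, abs_sub_comm] at hz2
  simpa [zsmul_eq_mul] using hz2

lemma approx_avoid {ψ : ℝ} (hψ : Irrational ψ) (x : ℝ) {δ : ℝ} (hδ : 0 < δ) (u : ℤ) :
    ∃ i m : ℤ, i ≠ u ∧ i ≠ -u ∧ |i * ψ - m - x| < δ := by
  set d := min δ 1 / 8 with hd
  have hd0 : 0 < d := by positivity
  have hdδ : d ≤ δ / 8 := by
    rw [hd]; have := min_le_left δ 1; linarith
  have hd1 : d ≤ 1 / 8 := by
    rw [hd]; have := min_le_right δ 1; linarith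
  obtain ⟨K, K', hK⟩ := approx hψ d (show 0 < d / 2 by positivity)
  rw [abs_lt] at hK
  have hK0 : K ≠ 0 := by
    rintro rfl
    simp only [Int.cast_zero, zero_mul, zero_sub] at hK
    have h1 : (0 : ℝ) < -K' := by linarith [hK.1]
    have h2 : (-K' : ℝ) < 1 := by linarith [hK.2]
    have h3 : (0 : ℤ) < -K' := by exact_mod_cast h1
    have h4 : (-K' : ℤ) < 1 := by exact_mod_cast h2
    omega
  obtain ⟨i, m, hi⟩ := approx hψ x (show 0 < δ / 4 by positivity)
  rw [abs_lt] at hi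
  have key : ∀ t : ℤ, 0 ≤ t → t ≤ 2 → |((i + t * K : ℤ) : ℝ) * ψ - ((m + t * K' : ℤ) : ℝ) - x| < δ := by
    intro t ht0 ht2
    have e : ((i + t * K : ℤ) : ℝ) * ψ - ((m + t * K' : ℤ) : ℝ) - x =
        (i * ψ - m - x) + t * (K * ψ - K') := by push_cast; ring
    rw [e]
    have ht0' : (0 : ℝ) ≤ t := by exact_mod_cast ht0
    have ht2' : (t : ℝ) ≤ 2 := by exact_mod_cast ht2
    have hv1 : 0 < K * ψ - K' := by linarith [hK.1]
    have hv2 : K * ψ - K' < 3 / 2 * d := by linarith [hK.2]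
    have h3 : 0 ≤ t * (K * ψ - K') := mul_nonneg ht0' hv1.le
    have h4 : t * (K * ψ - K') ≤ 2 * (3 / 2 * d) :=
      mul_le_mul ht2' hv2.le hv1.le (by norm_num)
    rw [abs_lt]; constructor <;> linarith [hi.1, hi.2]
  by_cases h0 : i ≠ u ∧ i ≠ -u
  · exact ⟨i, m, h0.1, h0.2, by simpa using key 0 (by norm_num) (by norm_num)⟩
  by_cases h1 : i + 1 * K ≠ u ∧ i + 1 * K ≠ -u
  · exact ⟨_, _, h1.1, h1.2, key 1 (by norm_num) (by norm_num)⟩
  refine ⟨i + 2 * K, m + 2 * K', ?_, ?_, key 2 (by norm_num) (by norm_num)⟩ <;> omega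

lemma tendsto_fib_atTop : Tendsto (fun n : ℕ => (fib (n + 2) : ℝ)) atTop atTop := by
  have h : Tendsto (fun n : ℕ => fib (n + 2)) atTop atTop :=
    Nat.fib_add_two_strictMono.tendsto_atTop
  exact tendsto_natCast_atTop_atTop.comp h

lemma tendsto_ratio :
    Tendsto (fun n : ℕ => (fib (n + 1) : ℝ) / fib (n + 2)) atTop (𝓝 Real.goldenRatio⁻¹) := by
  have h := tendsto_fib_succ_div_fib_atTop
  have h2 : Tendsto (fun n : ℕ => (fib (n + 1 + 1) : ℝ) / fib (n + 1)) atTop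
      (𝓝 Real.goldenRatio) := h.comp (tendsto_add_atTop_nat 1)
  have h3 := h2.inv₀ Real.goldenRatio_pos.ne'
  refine h3.congr fun n => ?_
  rw [inv_div]

lemma exists_location (x y : ℝ) {δ : ℝ} (hδ : 0 < δ) (N0 : ℕ) :
    ∃ N : ℕ, N0 ≤ N ∧ ∃ a b : ℤ, IsCoprime a (fib (N + 2) : ℤ) ∧
      (fib (N + 2) : ℤ) ∣ a * fib (N + 1) - b ∧
      |(a : ℝ) / fib (N + 2) - x| < δ ∧ |(b : ℝ) / fib (N + 2) - y| < δ := by
  have hψ : Irrational Real.goldenRatio⁻¹ := Real.goldenRatio_irrational.inv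
  set ψ := Real.goldenRatio⁻¹ with hψdef
  obtain ⟨j, m', hj⟩ := approx hψ y hδ
  obtain ⟨i, m, hi1, hi2, hi⟩ := approx_avoid hψ x hδ j
  have hD0 : i ^ 2 - j ^ 2 ≠ 0 := by
    intro h0
    rcases sq_eq_sq_iff_eq_or_eq_neg.mp (sub_eq_zero.mp h0) with h | h
    · exact hi1 h
    · exact hi2 h
  obtain ⟨h, hh0, hhdvd⟩ := exists_dvd_fib (i ^ 2 - j ^ 2).natAbs (Int.natAbs_pos.mpr hD0)
  -- limits
  have hF := tendsto_fib_atTop
  have hinv : Tendsto (fun n : ℕ => ((fib (n + 2) : ℝ))⁻¹) atTop (𝓝 0) := tendsto_inv_atTop_zero.comp hF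
  have hlim1 : Tendsto (fun n : ℕ => (i : ℝ) * ((fib (n + 1) : ℝ) / fib (n + 2)) +
      j * ((fib (n + 2) : ℝ))⁻¹ - m - x) atTop (𝓝 (i * ψ + j * 0 - m - x)) :=
    (((tendsto_ratio.const_mul _).add (hinv.const_mul _)).sub_const _).sub_const _
  have hlim2 : Tendsto (fun n : ℕ => (j : ℝ) * ((fib (n + 1) : ℝ) / fib (n + 2)) +
      i * ((fib (n + 2) : ℝ))⁻¹ - m' - y) atTop (𝓝 (j * ψ + i * 0 - m' - y)) :=
    (((tendsto_ratio.const_mul _).add (hinv.const_mul _)).sub_const _).sub_const _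
  have hev1 := hlim1.abs.eventually_lt_const (show |i * ψ + j * 0 - m - x| < δ by simpa using hi)
  have hev2 := hlim2.abs.eventually_lt_const (show |j * ψ + i * 0 - m' - y| < δ by simpa using hj)
  obtain ⟨N1, hN1⟩ := eventually_atTop.mp (hev1.and hev2)
  set k := N0 + N1 with hk
  set N := 2 * (h * k) with hN
  have hNk : k ≤ N := by
    rw [hN]; nlinarith [Nat.zero_le k]
  obtain ⟨hA, hB⟩ := hN1 N (by omega)
  set F : ℤ := (fib (N + 2) : ℤ) with hFdef
  set g : ℤ := (fib (N + 1) : ℤ) with hgdef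
  have hFpos : 0 < fib (N + 2) := Nat.fib_pos.mpr (by omega)
  have hFR : (0 : ℝ) < fib (N + 2) := by exact_mod_cast hFpos
  -- Cassini
  have hcas : g * g = 1 + fib N * F := by
    have := fib_docagne N 1
    have e : N + 1 + 1 = N + 2 := by ring
    rw [e] at this
    have hs : ((-1 : ℤ)) ^ N = 1 := by rw [hN, pow_mul]; norm_num
    rw [hs] at this
    simp only [Nat.fib_one, Nat.cast_one, mul_one] at this
    rw [hgdef, hFdef]; linarith
  refine ⟨N, by omega, i * g + j - m * F, i + j * g - m' * F, ?_, ?_, ?_, ?_⟩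
  · -- coprimality
    have hgcd : Nat.gcd (fib (N + 2)) (fib h) = 1 := by
      rw [← Nat.fib_gcd]
      have : Nat.gcd (N + 2) h = Nat.gcd 2 h := by
        have e : N + 2 = 2 + h * (2 * k) := by rw [hN]; ring
        rw [e, Nat.gcd_add_mul_left_left]
      rw [this]
      have h2 : Nat.gcd 2 h ∣ 2 := Nat.gcd_dvd_left _ _
      have h3 : Nat.gcd 2 h = 1 ∨ Nat.gcd 2 h = 2 := (Nat.dvd_prime Nat.prime_two).mp h2
      rcases h3 with h3 | h3 <;> rw [h3] <;> rfl
    have hcopD : IsCoprime (i ^ 2 - j ^ 2) F := by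
      have h1 : Nat.Coprime (fib (N + 2)) (i ^ 2 - j ^ 2).natAbs :=
        Nat.Coprime.coprime_dvd_right hhdvd hgcd
      rw [Int.isCoprime_iff_gcd_eq_one]
      rw [Int.gcd_eq_natAbs]
      have : F.natAbs = fib (N + 2) := by rw [hFdef]; exact Int.natAbs_natCast _
      rw [this]
      exact h1.symm
    have hprod : IsCoprime ((i * g + j) * (i * g - j)) F := by
      have e : (i * g + j) * (i * g - j) = (i ^ 2 - j ^ 2) + F * (i ^ 2 * fib N) := by
        linear_combination (i ^ 2) * hcas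
      rw [e]
      exact IsCoprime.add_mul_left_left hcopD _
    have h1 : IsCoprime (i * g + j) F := hprod.of_mul_left_left
    have e : i * g + j - m * F = (i * g + j) + F * (-m) := by ring
    rw [e]
    exact IsCoprime.add_mul_left_left h1 _
  · refine ⟨i * fib N - m * g + m', ?_⟩
    linear_combination i * hcas
  · have e : (((i * g + j - m * F : ℤ)) : ℝ) / fib (N + 2) - x =
        (i : ℝ) * ((fib (N + 1) : ℝ) / fib (N + 2)) + j * ((fib (N + 2) : ℝ))⁻¹ - m - x := by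
      rw [hgdef, hFdef]; push_cast; field_simp
    rw [e]; exact hA
  · have e : (((i + j * g - m' * F : ℤ)) : ℝ) / fib (N + 2) - y =
        (j : ℝ) * ((fib (N + 1) : ℝ) / fib (N + 2)) + i * ((fib (N + 2) : ℝ))⁻¹ - m' - y := by
      rw [hgdef, hFdef]; push_cast; field_simp; ring
    rw [e]; exact hB

end Pool.Agent.Lib_helper94.MDS
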