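import Mathlib
import Pool.Agent.Lib_helper94.MDSLoc

namespace Pool.Agent.Lib_helper94.MDS

open Filter Topology
open Nat (fib)

/-- the minimum over `q = 1, ..., k + 1` written as a finite infimum -/
noncomputable def mN (k : ℕ) (p : ℝ × ℝ) : ℝ :=
  (Finset.range (k + 1)).inf' ⟨0, by simp⟩
    (fun q : ℕ => distInt (((q : ℝ) + 1) * p.1) * distInt (((q : ℝ) + 1) * p.2))

lemma mMin_nat (k : ℕ) (p : ℝ × ℝ) : mMin p.1 p.2 ((k + 1 : ℕ) : ℝ) = mN k p := by
  apply le_antisymm
  · apply Finset.le_inf'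
    intro b hb
    rw [Finset.mem_range] at hb
    have h1 : (1 : ℤ) ≤ (b + 1 : ℕ) := by push_cast; omega
    have h2 : (((b + 1 : ℕ) : ℤ) : ℝ) ≤ ((k + 1 : ℕ) : ℝ) := by
      have : b + 1 ≤ k + 1 := by omega
      exact_mod_cast this
    have := mMin_le (ξ := p.1) (ζ := p.2) h1 h2
    push_cast at this ⊢
    exact this
  · apply le_mMin
    · push_cast; linarith [Nat.cast_nonneg (α := ℝ) k]
    · intro q h1 h2
      have h3 : q ≤ ((k + 1 : ℕ) : ℤ) := by exact_mod_cast h2
      have hq : ((q.toNat - 1 : ℕ) : ℤ) + 1 = q := by omega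
      have hqR : (((q.toNat - 1 : ℕ)) : ℝ) + 1 = (q : ℝ) := by exact_mod_cast hq
      have := Finset.inf'_le (s := Finset.range (k + 1))
        (fun q : ℕ => distInt (((q : ℝ) + 1) * p.1) * distInt (((q : ℝ) + 1) * p.2))
        (b := q.toNat - 1) (by rw [Finset.mem_range]; omega)
      simp only [hqR] at this
      exact this

lemma continuous_mN (k : ℕ) : Continuous (mN k) := by
  unfold mN
  apply Continuous.finset_inf'_apply
  intro q _
  exact (continuous_distInt.comp (continuous_const.mul continuous_fst)).mul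
    (continuous_distInt.comp (continuous_const.mul continuous_snd))

/-- `(k+1) m_k`, the supremum of `Q m_Q` over `k ≤ Q < k + 1`. -/
noncomputable def g (k : ℕ) (p : ℝ × ℝ) : ℝ := ((k : ℝ) + 1) * mMin p.1 p.2 k

lemma continuous_g {k : ℕ} (hk : 1 ≤ k) : Continuous (g k) := by
  obtain ⟨k', rfl⟩ : ∃ k', k = k' + 1 := ⟨k - 1, by omega⟩
  have : g (k' + 1) = fun p => (((k' + 1 : ℕ) : ℝ) + 1) * mN k' p := by
    funext p
    unfold g
    rw [mMin_nat]
  rw [this]
  exact continuous_const.mul (continuous_mN k')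

lemma g_nonneg (k : ℕ) (p : ℝ × ℝ) : 0 ≤ g k p :=
  mul_nonneg (by positivity) (mMin_nonneg _ _ _)

noncomputable def cstar : ℝ := (3 - Real.sqrt 5) / 2

lemma tendsto_ratio2 :
    Tendsto (fun n : ℕ => (fib n : ℝ) / fib (n + 2)) atTop (𝓝 cstar) := by
  have h := tendsto_ratio
  have h2 : Tendsto (fun n : ℕ => 1 - (fib (n + 1) : ℝ) / fib (n + 2)) atTop
      (𝓝 (1 - Real.goldenRatio⁻¹)) := h.const_sub 1
  have e : 1 - Real.goldenRatio⁻¹ = cstar := by
    rw [Real.inv_goldenRatio, Real.goldenConj, cstar]; ring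
  rw [e] at h2
  refine h2.congr fun n => ?_
  have hpos : (0 : ℝ) < fib (n + 2) := by
    have : 0 < fib (n + 2) := Nat.fib_pos.mpr (by omega)
    exact_mod_cast this
  rw [eq_div_iff hpos.ne', sub_mul, div_mul_cancel₀ _ hpos.ne', one_mul, Nat.fib_add_two]
  push_cast; ring

/-- One step of the construction. -/
lemma stage {lam : ℝ} (h0 : 0 ≤ lam) (h1 : lam ≤ cstar) {ε : ℝ} (hε : 0 < ε)
    {D : ℕ} (hD : 1 ≤ D) (P : ℤ) (y : ℝ) {r : ℝ} (hr : 0 < r) :
    ∃ (D' : ℕ) (P' : ℤ) (y' r' : ℝ), D < D' ∧ 0 < r' ∧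
      |(P' : ℝ) / D' - P / D| + r' ≤ r ∧ |y' - y| + r' ≤ r ∧
      ∀ p : ℝ × ℝ, |p.1 - P' / D'| ≤ r' → |p.2 - y'| ≤ r' →
        (∀ k : ℕ, D ≤ k → k < D' → g k p ≤ lam + ε) ∧
        (∃ k : ℕ, D ≤ k ∧ k < D' ∧ lam - ε ≤ g k p) := by
  -- a rational second coordinate near `y`
  obtain ⟨E0, hE0a, hE0b⟩ := exists_rat_btwn (show y < y + r / 2 by linarith)
  set E : ℕ := E0.den with hE
  have hEpos : 0 < E := E0.den_pos
  have hDR : (0 : ℝ) < D := by exact_mod_cast hD
  have hER : (0 : ℝ) < E := by exact_mod_cast hEpos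
  set η : ℝ := ε / (E * D) with hη
  have hη0 : 0 < η := by positivity
  -- choose the Fibonacci denominator
  have hev1 : ∀ᶠ n : ℕ in atTop, cstar - ε / 2 < (fib n : ℝ) / fib (n + 2) :=
    tendsto_ratio2.eventually_const_lt (by linarith)
  have hev2 : ∀ᶠ n : ℕ in atTop, (D : ℝ) < fib (n + 2) :=
    tendsto_fib_atTop.eventually_gt_atTop _
  obtain ⟨N0, hN0⟩ := eventually_atTop.mp (hev1.and hev2)
  obtain ⟨N, hNN0, a, b, hcop, hcong, ha, hb⟩ :=
    exists_location ((P : ℝ) / D) y (show 0 < min η (r / 2) by positivity) N0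
  obtain ⟨hr1, hr2⟩ := hN0 N hNN0
  have haη : |(a : ℝ) / fib (N + 2) - P / D| < η := ha.trans_le (min_le_left _ _)
  have har : |(a : ℝ) / fib (N + 2) - P / D| < r / 2 := ha.trans_le (min_le_right _ _)
  have hbr : |(b : ℝ) / fib (N + 2) - y| < r / 2 := hb.trans_le (min_le_right _ _)
  set F : ℕ := fib (N + 2) with hF
  have hDF : D < F := by exact_mod_cast hr2
  have hFpos : 0 < F := by omega
  have hFR : (0 : ℝ) < F := by exact_mod_cast hFpos
  have hne : (Finset.Ico D F).Nonempty := ⟨D, by simp [hDF]⟩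
  set x' : ℝ := (a : ℝ) / F with hx'
  -- the function whose value we prescribe
  set Φ : ℝ × ℝ → ℝ := fun p => (Finset.Ico D F).sup' hne (fun k => g k p) with hΦ
  have hΦc : Continuous Φ := by
    apply Continuous.finset_sup'_apply
    intro k hk
    rw [Finset.mem_Ico] at hk
    exact continuous_g (by omega)
  have hΦle : ∀ p c, (∀ k, D ≤ k → k < F → g k p ≤ c) → Φ p ≤ c := by
    intro p c h
    apply Finset.sup'_le
    intro k hk
    rw [Finset.mem_Ico] at hk
    exact h k hk.1 hk.2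
  have hleΦ : ∀ p k, D ≤ k → k < F → g k p ≤ Φ p := by
    intro p k h1 h2
    exact Finset.le_sup' (fun k => g k p) (Finset.mem_Ico.mpr ⟨h1, h2⟩)
  -- large value at the Fibonacci pair
  have hbig : cstar - ε / 2 ≤ Φ (x', (b : ℝ) / F) := by
    have hk : g (F - 1) (x', (b : ℝ) / F) ≤ Φ (x', (b : ℝ) / F) :=
      hleΦ _ _ (by omega) (by omega)
    refine le_trans ?_ hk
    have hF2 : 2 ≤ F := by omega
    have hcast : (((F - 1 : ℕ)) : ℝ) + 1 = F := by
      have : F - 1 + 1 = F := by omega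
      exact_mod_cast this
    have hm : (fib N : ℝ) / (F : ℝ) ^ 2 ≤ mMin x' ((b : ℝ) / F) ((F - 1 : ℕ) : ℝ) := by
      apply le_mMin
      · have : 1 ≤ F - 1 := by omega
        exact_mod_cast this
      · intro q hq1 hq2
        have hq3 : q ≤ ((F - 1 : ℕ) : ℤ) := by exact_mod_cast hq2
        apply prod_lower N hcop hcong
        intro hdvd
        have := Int.le_of_dvd (by omega) hdvd
        omega
    unfold g
    simp only
    rw [hcast]
    have h3 : (F : ℝ) * ((fib N : ℝ) / (F : ℝ) ^ 2) ≤ F * mMin x' ((b : ℝ) / F) ((F - 1 : ℕ) : ℝ) :=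
      mul_le_mul_of_nonneg_left hm hFR.le
    have h4 : (F : ℝ) * ((fib N : ℝ) / (F : ℝ) ^ 2) = (fib N : ℝ) / F := by
      field_simp
    linarith
  -- small value at the rational point
  have hsmall : Φ (x', (E0 : ℝ)) ≤ ε / 2 := by
    apply hΦle
    intro k hk1 hk2
    unfold g
    simp only
    rcases le_or_gt E k with hEk | hEk
    · have h3 := mMin_le (ξ := x') (ζ := (E0 : ℝ)) (Q := (k : ℝ)) (q := (E : ℤ))
        (by exact_mod_cast hEpos) (by exact_mod_cast hEk)
      have h4 : distInt (((E : ℤ) : ℝ) * (E0 : ℝ)) = 0 := by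
        have e : ((E : ℤ) : ℝ) * (E0 : ℝ) = (E0.num : ℝ) := by
          have := Rat.den_mul_eq_num E0
          rw [hE]; exact_mod_cast this
        rw [e]; exact distInt_int _
      rw [h4, mul_zero] at h3
      have h5 : ((k : ℝ) + 1) * mMin x' (E0 : ℝ) k ≤ ((k : ℝ) + 1) * 0 :=
        mul_le_mul_of_nonneg_left h3 (by positivity)
      linarith
    · have h3 := mMin_le (ξ := x') (ζ := (E0 : ℝ)) (Q := (k : ℝ)) (q := (D : ℤ))
        (by exact_mod_cast hD) (by exact_mod_cast hk1)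
      have h4 : distInt (((D : ℤ) : ℝ) * x') ≤ D * η := by
        have h5 := distInt_le (((D : ℤ) : ℝ) * x') P
        have e : ((D : ℤ) : ℝ) * x' - P = D * (x' - P / D) := by
          push_cast; field_simp
        rw [e, abs_mul, abs_of_pos hDR] at h5
        exact h5.trans (mul_le_mul_of_nonneg_left haη.le hDR.le)
      have h6 : distInt (((D : ℤ) : ℝ) * x') * distInt (((D : ℤ) : ℝ) * (E0 : ℝ)) ≤
          (D * η) * (1 / 2) :=
        mul_le_mul h4 (distInt_le_half _) (distInt_nonneg _) (by positivity)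
      have h7 : ((k : ℝ) + 1) ≤ E := by exact_mod_cast hEk
      have h8 : ((k : ℝ) + 1) * mMin x' (E0 : ℝ) k ≤ E * ((D * η) * (1 / 2)) :=
        mul_le_mul h7 (h3.trans h6) (mMin_nonneg _ _ _) hER.le
      have h9 : (E : ℝ) * ((D * η) * (1 / 2)) = ε / 2 := by
        rw [hη]; field_simp
      linarith
  -- intermediate value
  obtain ⟨y', hy', hΦ1, hΦ2⟩ : ∃ y' : ℝ, |y' - y| < r / 2 ∧ lam - ε / 2 ≤ Φ (x', y') ∧
      Φ (x', y') ≤ lam + ε / 2 := by
    have hE0y : |(E0 : ℝ) - y| < r / 2 := by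
      rw [abs_lt]; constructor <;> linarith
    rcases le_or_gt lam (Φ (x', (E0 : ℝ))) with hc1 | hc1
    · exact ⟨E0, hE0y, by linarith, by linarith⟩
    rcases le_or_gt (Φ (x', (b : ℝ) / F)) lam with hc2 | hc2
    · exact ⟨(b : ℝ) / F, hbr, by linarith, by linarith⟩
    have hcont : ContinuousOn (fun z : ℝ => Φ (x', z)) (Set.uIcc (E0 : ℝ) ((b : ℝ) / F)) :=
      (hΦc.comp (continuous_const.prodMk continuous_id)).continuousOn
    have hmem : lam ∈ Set.uIcc (Φ (x', (E0 : ℝ))) (Φ (x', (b : ℝ) / F)) := by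
      rw [Set.mem_uIcc]; left; exact ⟨hc1.le, hc2.le⟩
    obtain ⟨z, hz, hz2⟩ := intermediate_value_uIcc hcont hmem
    refine ⟨z, ?_, ?_, ?_⟩
    · rw [abs_lt] at hE0y hbr ⊢
      rw [Set.mem_uIcc] at hz
      rcases hz with hz | hz <;> constructor <;> linarith [hz.1, hz.2]
    · simp only at hz2; linarith
    · simp only at hz2; linarith
  -- robustness
  have hcontAt := Metric.continuous_iff.mp hΦc (x', y') (ε / 2) (by positivity)
  obtain ⟨δ, hδ, hball⟩ := hcontAt
  refine ⟨F, a, y', min (δ / 2) (r / 2), hDF, by positivity, ?_, ?_, ?_⟩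
  · have := min_le_right (δ / 2) (r / 2)
    linarith
  · have := min_le_right (δ / 2) (r / 2)
    linarith
  · intro p hp1 hp2
    have hm := min_le_left (δ / 2) (r / 2)
    have hd : dist p (x', y') < δ := by
      rw [Prod.dist_eq, max_lt_iff, Real.dist_eq, Real.dist_eq]
      constructor <;> simp only <;> linarith
    have h3 := hball p hd
    rw [Real.dist_eq, abs_lt] at h3
    constructor
    · intro k hk1 hk2
      have := hleΦ p k hk1 hk2
      linarith
    · obtain ⟨k, hk, hk2⟩ := Finset.exists_mem_eq_sup' hne (fun k => g k p)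
      rw [Finset.mem_Ico] at hk
      refine ⟨k, hk.1, hk.2, ?_⟩
      have : Φ p = g k p := hk2
      linarith

/-- A state of the construction. -/
structure State where
  D : ℕ
  P : ℤ
  y : ℝ
  r : ℝ
  hD : 1 ≤ D
  hr : 0 < r

/-- The relation between consecutive states. -/
def Rel (lam ε : ℝ) (S S' : State) : Prop :=
  S.D < S'.D ∧ |(S'.P : ℝ) / S'.D - S.P / S.D| + S'.r ≤ S.r ∧ |S'.y - S.y| + S'.r ≤ S.r ∧
    ∀ p : ℝ × ℝ, |p.1 - S'.P / S'.D| ≤ S'.r → |p.2 - S'.y| ≤ S'.r →
      (∀ k : ℕ, S.D ≤ k → k < S'.D → g k p ≤ lam + ε) ∧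
      (∃ k : ℕ, S.D ≤ k ∧ k < S'.D ∧ lam - ε ≤ g k p)

lemma exists_next {lam : ℝ} (h0 : 0 ≤ lam) (h1 : lam ≤ cstar) {ε : ℝ} (hε : 0 < ε) (S : State) :
    ∃ S' : State, Rel lam ε S S' := by
  obtain ⟨D', P', y', r', hDD, hr', h2, h3, h4⟩ := stage h0 h1 hε S.hD S.P S.y S.hr
  exact ⟨⟨D', P', y', r', by have := S.hD; omega, hr'⟩, hDD, h2, h3, h4⟩

theorem exists_pair {lam : ℝ} (h0 : 0 ≤ lam) (h1 : lam ≤ cstar) : ∃ ξ ζ : ℝ, L ξ ζ = lam := by
  have hnext : ∀ (n : ℕ) (S : State), ∃ S' : State, Rel lam (1 / ((n : ℝ) + 1)) S S' :=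
    fun n S => exists_next h0 h1 (by positivity) S
  choose nxt hnxt using hnext
  let S0 : State := ⟨1, 0, 0, 1, le_refl _, one_pos⟩
  let seq : ℕ → State := fun n => Nat.rec S0 (fun n S => nxt n S) n
  have hseq : ∀ n : ℕ, Rel lam (1 / ((n : ℝ) + 1)) (seq n) (seq (n + 1)) := fun n => hnxt n (seq n)
  -- the limit point
  have hx_mono : Monotone (fun n => ((seq n).P : ℝ) / (seq n).D - (seq n).r) := by
    apply monotone_nat_of_le_succ
    intro n
    have := (hseq n).2.1
    have h3 := neg_abs_le (((seq (n + 1)).P : ℝ) / (seq (n + 1)).D - (seq n).P / (seq n).D)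
    linarith
  have hx_anti : Antitone (fun n => ((seq n).P : ℝ) / (seq n).D + (seq n).r) := by
    apply antitone_nat_of_succ_le
    intro n
    have := (hseq n).2.1
    have h3 := le_abs_self (((seq (n + 1)).P : ℝ) / (seq (n + 1)).D - (seq n).P / (seq n).D)
    linarith
  have hy_mono : Monotone (fun n => (seq n).y - (seq n).r) := by
    apply monotone_nat_of_le_succ
    intro n
    have := (hseq n).2.2.1
    have h3 := neg_abs_le ((seq (n + 1)).y - (seq n).y)
    linarith
  have hy_anti : Antitone (fun n => (seq n).y + (seq n).r) := by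
    apply antitone_nat_of_succ_le
    intro n
    have := (hseq n).2.2.1
    have h3 := le_abs_self ((seq (n + 1)).y - (seq n).y)
    linarith
  have hxmem := Monotone.ciSup_mem_iInter_Icc_of_antitone hx_mono hx_anti
    (fun n => by have := (seq n).hr; simp only; linarith)
  have hymem := Monotone.ciSup_mem_iInter_Icc_of_antitone hy_mono hy_anti
    (fun n => by have := (seq n).hr; simp only; linarith)
  set ξ := ⨆ n, (((seq n).P : ℝ) / (seq n).D - (seq n).r) with hξ
  set ζ := ⨆ n, ((seq n).y - (seq n).r) with hζ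
  have hx : ∀ n, |ξ - (seq n).P / (seq n).D| ≤ (seq n).r := by
    intro n
    have := Set.mem_iInter.mp hxmem n
    rw [Set.mem_Icc] at this
    rw [abs_le]; constructor <;> linarith [this.1, this.2]
  have hy : ∀ n, |ζ - (seq n).y| ≤ (seq n).r := by
    intro n
    have := Set.mem_iInter.mp hymem n
    rw [Set.mem_Icc] at this
    rw [abs_le]; constructor <;> linarith [this.1, this.2]
  have hup : ∀ n k : ℕ, (seq n).D ≤ k → k < (seq (n + 1)).D →
      g k (ξ, ζ) ≤ lam + 1 / ((n : ℝ) + 1) := fun n =>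
    ((hseq n).2.2.2 (ξ, ζ) (hx (n + 1)) (hy (n + 1))).1
  have hlow : ∀ n : ℕ, ∃ k : ℕ, (seq n).D ≤ k ∧ k < (seq (n + 1)).D ∧
      lam - 1 / ((n : ℝ) + 1) ≤ g k (ξ, ζ) := fun n =>
    ((hseq n).2.2.2 (ξ, ζ) (hx (n + 1)) (hy (n + 1))).2
  have hDmono : StrictMono (fun n => (seq n).D) := strictMono_nat_of_lt_succ fun n => (hseq n).1
  have hDge : ∀ n, n ≤ (seq n).D := fun n => hDmono.id_le n
  refine ⟨ξ, ζ, le_antisymm ?_ ?_⟩
  · -- upper bound
    apply le_of_forall_pos_le_add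
    intro ε hε
    obtain ⟨n0, hn0⟩ := exists_nat_one_div_lt hε
    apply L_le_of_eventually
    filter_upwards [eventually_ge_atTop (((seq n0).D : ℕ) : ℝ)] with Q hQ
    have hQ0 : 0 ≤ Q := le_trans (by positivity) hQ
    set k := ⌊Q⌋₊ with hk
    have hkQ : (k : ℝ) ≤ Q := Nat.floor_le hQ0
    have hQk : Q < (k : ℝ) + 1 := Nat.lt_floor_add_one Q
    have hDk : (seq n0).D ≤ k := Nat.le_floor hQ
    -- the block containing `k`
    obtain ⟨n, hn1, hn2, hn3⟩ : ∃ n, n0 ≤ n ∧ (seq n).D ≤ k ∧ k < (seq (n + 1)).D := by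
      classical
      have hex : ∃ m, k < (seq m).D := ⟨k + 1, lt_of_lt_of_le (Nat.lt_succ_self k) (hDge (k + 1))⟩
      have hm := Nat.find_spec hex
      have hpos : n0 < Nat.find hex := by
        by_contra hcon
        push Not at hcon
        have := hDmono.monotone hcon
        omega
      refine ⟨Nat.find hex - 1, by omega, ?_, ?_⟩
      · have := Nat.find_min hex (m := Nat.find hex - 1) (by omega)
        omega
      · have e : Nat.find hex - 1 + 1 = Nat.find hex := by omega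
        rw [e]; exact hm
    have hk1 : 1 ≤ k := le_trans (seq n0).hD hDk
    have h3 := hup n k hn2 hn3
    have h4 : (1 : ℝ) / ((n : ℝ) + 1) ≤ 1 / ((n0 : ℝ) + 1) := by
      apply one_div_le_one_div_of_le (by positivity)
      have : (n0 : ℝ) ≤ n := by exact_mod_cast hn1
      linarith
    have h5 : mMin ξ ζ Q ≤ mMin ξ ζ (k : ℝ) := by
      apply le_mMin (by exact_mod_cast hk1)
      intro q hq1 hq2
      exact mMin_le hq1 (hq2.trans hkQ)
    have h6 : Q * mMin ξ ζ Q ≤ ((k : ℝ) + 1) * mMin ξ ζ (k : ℝ) :=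
      mul_le_mul hQk.le h5 (mMin_nonneg _ _ _) (by positivity)
    have h7 : ((k : ℝ) + 1) * mMin ξ ζ (k : ℝ) = g k (ξ, ζ) := rfl
    linarith
  · -- lower bound
    apply le_of_forall_pos_le_add
    intro ε hε
    have : lam - ε ≤ L ξ ζ := by
      apply le_L_of_frequently
      rw [frequently_atTop]
      intro A
      obtain ⟨n0, hn0⟩ := exists_nat_one_div_lt (show 0 < ε / 2 by positivity)
      obtain ⟨n1, hn1⟩ := exists_nat_ge A
      set n := n0 + n1 with hn
      obtain ⟨k, hk1, hk2, hk3⟩ := hlow n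
      have hDn := hDge n
      have hk0 : 1 ≤ k := le_trans (seq n).hD hk1
      have hkR : (1 : ℝ) ≤ k := by exact_mod_cast hk0
      refine ⟨(k : ℝ), ?_, ?_⟩
      · have : n1 ≤ k := by omega
        have : (n1 : ℝ) ≤ k := by exact_mod_cast this
        linarith
      · have h4 : (1 : ℝ) / ((n : ℝ) + 1) ≤ 1 / ((n0 : ℝ) + 1) := by
          apply one_div_le_one_div_of_le (by positivity)
          have : (n0 : ℝ) ≤ n := by rw [hn]; push_cast; linarith [Nat.cast_nonneg (α := ℝ) n1]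
          linarith
        have h5 := Q_mMin_le_half (ξ := ξ) (ζ := ζ) hkR
        -- m_k ≤ 1/(2k) ≤ 1/(n0+1) when k large: use k ≥ seq n D ≥ n
        have h7 : ((k : ℝ) + 1) * mMin ξ ζ (k : ℝ) = g k (ξ, ζ) := rfl
        have hkn : (n0 : ℝ) ≤ k := by
          have : n0 ≤ k := by omega
          exact_mod_cast this
        have h8 : mMin ξ ζ (k : ℝ) ≤ 1 / ((n0 : ℝ) + 1) := by
          rw [le_div_iff₀ (by positivity)]
          have hm0 := mMin_nonneg ξ ζ (k : ℝ)
          nlinarith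
        have h9 : (k : ℝ) * mMin ξ ζ (k : ℝ) = g k (ξ, ζ) - mMin ξ ζ (k : ℝ) := by
          rw [← h7]; ring
        rw [h9]
        linarith
    linarith

end Pool.Agent.Lib_helper94.MDS
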